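import Mathlib

/-!
Apery-type polynomials at `1/4`: expansion of the normalised alternating sums in the basis
`C(n-1,l) C(n+l,l)`.
-/

set_option autoImplicit false

namespace Pool.Agent.R440.DC

open Finset Nat

/-- `C(n,k) C(n+k,k)` -/
def aa (n k : ℕ) : ℚ := (n.choose k : ℚ) * ((n + k).choose k : ℚ)

/-- `C(m,l) C(m+1+l,l)` -/
def bb (m l : ℕ) : ℤ := (m.choose l : ℤ) * ((m + 1 + l).choose l : ℤ)

theorem aa_zero_of_lt {n k : ℕ} (h : n < k) : aa n k = 0 := by
  simp [aa, Nat.choose_eq_zero_of_lt h]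

theorem aa_n_zero (n : ℕ) : aa n 0 = 1 := by simp [aa]

theorem aa_succ_k (n k : ℕ) :
    ((k : ℚ) + 1) ^ 2 * aa n (k + 1) = ((n : ℚ) - k) * ((n : ℚ) + k + 1) * aa n k := by
  have h1 : (n.choose (k + 1) : ℚ) * ((k : ℚ) + 1) = n.choose k * ((n : ℚ) - k) := by
    rcases Nat.lt_or_ge n k with h | h
    · rw [Nat.choose_eq_zero_of_lt h, Nat.choose_eq_zero_of_lt (by omega)]; simp
    · have := Nat.choose_succ_right_eq n k
      have h2 : ((n.choose (k + 1) * (k + 1) : ℕ) : ℚ) = ((n.choose k * (n - k) : ℕ) : ℚ) := by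
        rw [this]
      push_cast [Nat.cast_sub h] at h2
      exact h2
  have h2 : ((n + k + 1 : ℕ) : ℚ) * ((n + k).choose k : ℚ)
      = ((n + k + 1).choose (k + 1) : ℚ) * ((k + 1 : ℕ) : ℚ) := by
    exact_mod_cast Nat.add_one_mul_choose_eq (n + k) k
  push_cast at h2
  unfold aa
  have h3 : n + (k + 1) = n + k + 1 := by ring
  rw [h3]
  calc ((k : ℚ) + 1) ^ 2 * ((n.choose (k + 1) : ℚ) * ((n + k + 1).choose (k + 1) : ℚ))
      = ((n.choose (k + 1) : ℚ) * ((k : ℚ) + 1)) * (((n + k + 1).choose (k + 1) : ℚ) * ((k : ℚ) + 1))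
        := by ring
    _ = (n.choose k * ((n : ℚ) - k)) * (((n : ℚ) + k + 1) * ((n + k).choose k : ℚ)) := by
        rw [h1, ← h2]
    _ = _ := by ring

theorem aa_succ_n (n k : ℕ) :
    ((n : ℚ) + 1 - k) * aa (n + 1) k = ((n : ℚ) + 1 + k) * aa n k := by
  have h1 : (n.choose k : ℚ) * ((n : ℚ) + 1) = (n + 1).choose k * ((n : ℚ) + 1 - k) := by
    rcases Nat.lt_or_ge (n + 1) k with h | h
    · rw [Nat.choose_eq_zero_of_lt h, Nat.choose_eq_zero_of_lt (by omega)]; simp
    · have := Nat.choose_mul_succ_eq n k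
      have h2 : ((n.choose k * (n + 1) : ℕ) : ℚ) = (((n + 1).choose k * (n + 1 - k) : ℕ) : ℚ) := by
        rw [this]
      push_cast [Nat.cast_sub h] at h2
      exact h2
  have h2 : ((n + k).choose k : ℚ) * ((n : ℚ) + k + 1) = (n + k + 1).choose k * ((n : ℚ) + 1) := by
    have := Nat.choose_mul_succ_eq (n + k) k
    have h2 : (((n + k).choose k * (n + k + 1) : ℕ) : ℚ)
        = (((n + k + 1).choose k * (n + k + 1 - k) : ℕ) : ℚ) := by
      rw [this]
    have h3 : n + k + 1 - k = n + 1 := by omega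
    rw [h3] at h2
    push_cast at h2
    exact h2
  unfold aa
  have h3 : n + 1 + k = n + k + 1 := by ring
  rw [h3]
  have hn : ((n : ℚ) + 1) ≠ 0 := by positivity
  apply mul_left_cancel₀ hn
  linear_combination (-((n + k + 1).choose k : ℚ) * ((n : ℚ) + 1)) * h1
    - (n.choose k : ℚ) * ((n : ℚ) + 1) * h2

theorem bb_eq (m l : ℕ) : ((m : ℚ) + 1) * (bb m l : ℚ) = ((m : ℚ) + 1 + l) * aa m l := by
  have h2 : ((m + l).choose l : ℚ) * ((m : ℚ) + l + 1) = (m + l + 1).choose l * ((m : ℚ) + 1) := by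
    have := Nat.choose_mul_succ_eq (m + l) l
    have h2 : (((m + l).choose l * (m + l + 1) : ℕ) : ℚ)
        = (((m + l + 1).choose l * (m + l + 1 - l) : ℕ) : ℚ) := by
      rw [this]
    have h3 : m + l + 1 - l = m + 1 := by omega
    rw [h3] at h2
    push_cast at h2
    exact h2
  unfold bb aa
  have h3 : m + 1 + l = m + l + 1 := by ring
  rw [h3]
  push_cast
  linear_combination -(m.choose l : ℚ) * h2

theorem sum_aa (l m : ℕ) :
    ((l : ℚ) + 1) * ∑ k ∈ range (m + 1), (2 * (k : ℚ) + 1) * aa k l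
      = ((m : ℚ) + 1) ^ 2 * (bb m l : ℚ) := by
  induction m with
  | zero =>
    rcases Nat.eq_zero_or_pos l with h | h
    · subst h; simp [aa, bb]
    · have h1 : aa 0 l = 0 := aa_zero_of_lt h
      have h2 : (bb 0 l : ℚ) = 0 := by
        simp [bb, Nat.choose_eq_zero_of_lt h]
      simp [h1, h2]
  | succ m ih =>
    rw [Finset.sum_range_succ, mul_add, ih]
    have e1 := bb_eq m l
    have e2 := bb_eq (m + 1) l
    have e3 := aa_succ_n m l
    push_cast at e2 ⊢
    linear_combination ((m : ℚ) + 1) * e1 - ((m : ℚ) + 2) * e2 - ((m : ℚ) + 1) * e3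

/-- alternating binomial identity -/
theorem alt_choose (N j : ℕ) :
    ∑ i ∈ range (N + 1), (-1 : ℚ) ^ (N - i) * (N.choose i : ℚ) * ((2 * j + N + i).choose i : ℚ)
      = ((2 * j + N).choose N : ℚ) := by
  have h1 := fwdDiff_iter_choose (2 * j) N
  have h2 := congrFun h1 (2 * j + N)
  rw [fwdDiff_iter_eq_sum_shift] at h2
  have h3 : (((2 * j + N).choose (2 * j) : ℤ) : ℚ) = ((2 * j + N).choose N : ℚ) := by
    have : (2 * j + N).choose (2 * j) = (2 * j + N).choose N := Nat.choose_symm_add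
    rw [this]; norm_cast
  rw [← h3, ← h2]
  push_cast
  apply Finset.sum_congr rfl
  intro i hi
  have h4 : (2 * j + N + i).choose i = (2 * j + N + i).choose (N + 2 * j) := by
    have := @Nat.choose_symm_add (2 * j + N) i
    rw [← this]; congr 1; ring
  rw [h4]
  simp

theorem aa_sq (j N : ℕ) :
    (aa (j + N) j) ^ 2 = ∑ l ∈ range (j + N + 1),
      (-1 : ℚ) ^ (j + N - l) * aa (j + N) l * (l.choose j : ℚ) ^ 2 * ((2 * j).choose j : ℚ) := by
  have hf : ∀ m : ℕ, ((m ! : ℕ) : ℚ) ≠ 0 := fun m => by exact_mod_cast Nat.factorial_ne_zero m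
  have h0 : j + N + 1 = j + (N + 1) := by ring
  rw [h0, Finset.sum_range_add]
  have h1 : ∑ l ∈ range j, (-1 : ℚ) ^ (j + N - l) * aa (j + N) l * (l.choose j : ℚ) ^ 2
      * ((2 * j).choose j : ℚ) = 0 := by
    apply Finset.sum_eq_zero
    intro l hl
    rw [Nat.choose_eq_zero_of_lt (Finset.mem_range.mp hl)]; simp
  rw [h1, zero_add]
  have h2 : ∀ i ∈ range (N + 1), (-1 : ℚ) ^ (j + N - (j + i)) * aa (j + N) (j + i)
      * ((j + i).choose j : ℚ) ^ 2 * ((2 * j).choose j : ℚ)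
      = (-1 : ℚ) ^ (N - i) * (N.choose i : ℚ) * ((2 * j + N + i).choose i : ℚ)
        * (((2 * j + N)! : ℚ) / ((N ! : ℚ) * (j ! : ℚ) ^ 2) * ((2 * j).choose j : ℚ)) := by
    intro i hi
    obtain ⟨e, he⟩ := Nat.exists_eq_add_of_le (Nat.lt_succ_iff.mp (Finset.mem_range.mp hi))
    have e1 : j + N - (j + i) = N - i := by omega
    rw [e1]
    unfold aa
    have c1 : ((j + N).choose (j + i) : ℚ) = (j + N)! / ((j + i)! * e !) := by
      have : j + N = (j + i) + e := by omega
      rw [this, Nat.cast_add_choose]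
    have c2 : ((j + N + (j + i)).choose (j + i) : ℚ) = (2 * j + N + i)! / ((j + i)! * (j + N)!) := by
      have h : j + N + (j + i) = (j + i) + (j + N) := by ring
      rw [h, Nat.cast_add_choose]
      have h' : (j + i) + (j + N) = 2 * j + N + i := by ring
      rw [h']
    have c3 : ((j + i).choose j : ℚ) = (j + i)! / (j ! * i !) := by
      rw [Nat.cast_add_choose]
    have c4 : (N.choose i : ℚ) = N ! / (i ! * e !) := by
      rw [he, Nat.cast_add_choose]
    have c5 : ((2 * j + N + i).choose i : ℚ) = (2 * j + N + i)! / (i ! * (2 * j + N)!) := by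
      have h : 2 * j + N + i = i + (2 * j + N) := by ring
      rw [h, Nat.cast_add_choose]
    rw [c1, c2, c3, c4, c5]
    have f1 := hf (j + N)
    have f2 := hf (j + i)
    have f3 := hf e
    have f4 := hf j
    have f5 := hf i
    have f6 := hf N
    have f7 := hf (2 * j + N)
    field_simp
  rw [Finset.sum_congr rfl h2, ← Finset.sum_mul, alt_choose]
  have c1 : ((2 * j + N).choose N : ℚ) = (2 * j + N)! / (N ! * (2 * j)!) := by
    have h : 2 * j + N = N + 2 * j := by ring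
    rw [h, Nat.cast_add_choose]
  have c2 : ((2 * j).choose j : ℚ) = (2 * j)! / (j ! * j !) := by
    have h : 2 * j = j + j := by ring
    rw [h, Nat.cast_add_choose]
  have c3 : aa (j + N) j = (2 * j + N)! / (N ! * (j ! : ℚ) ^ 2) := by
    unfold aa
    have h1 : ((j + N).choose j : ℚ) = (j + N)! / (j ! * N !) := by rw [Nat.cast_add_choose]
    have h2 : ((j + N + j).choose j : ℚ) = (2 * j + N)! / (j ! * (j + N)!) := by
      have h : j + N + j = j + (j + N) := by ring
      rw [h, Nat.cast_add_choose]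
      have h' : j + (j + N) = 2 * j + N := by ring
      rw [h']
    rw [h1, h2]
    have f1 := hf (j + N)
    have f4 := hf j
    have f6 := hf N
    field_simp
  rw [c1, c2, c3]
  have f4 := hf j
  have f6 := hf N
  have f7 := hf (2 * j)
  field_simp

/-- `g_l(1/4)` -/
def gg (l : ℕ) : ℚ := ∑ j ∈ range (l + 1), (l.choose j : ℚ) ^ 2 * ((2 * j).choose j : ℚ) * (1 / 4) ^ j

/-- the value at `1/4` of the Apery polynomial -/
def Aq (k : ℕ) : ℚ := ∑ j ∈ range (k + 1), (aa k j) ^ 2 * (1 / 4) ^ j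

theorem Aq_eq (k : ℕ) : Aq k = ∑ l ∈ range (k + 1), (-1 : ℚ) ^ (k - l) * aa k l * gg l := by
  unfold Aq
  have h1 : ∀ j ∈ range (k + 1), (aa k j) ^ 2 * (1 / 4 : ℚ) ^ j
      = ∑ l ∈ range (k + 1), (-1 : ℚ) ^ (k - l) * aa k l * ((l.choose j : ℚ) ^ 2
        * ((2 * j).choose j : ℚ) * (1 / 4) ^ j) := by
    intro j hj
    obtain ⟨N, hN⟩ := Nat.exists_eq_add_of_le (Nat.lt_succ_iff.mp (Finset.mem_range.mp hj))
    subst hN
    rw [aa_sq, Finset.sum_mul]
    apply Finset.sum_congr rfl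
    intro l _
    ring
  rw [Finset.sum_congr rfl h1, Finset.sum_comm]
  apply Finset.sum_congr rfl
  intro l hl
  have hl' : l ≤ k := Nat.lt_succ_iff.mp (Finset.mem_range.mp hl)
  rw [← Finset.mul_sum]
  congr 1
  unfold gg
  symm
  apply Finset.sum_subset (Finset.range_mono (by omega))
  intro j _ hj
  rw [Finset.mem_range, not_lt] at hj
  rw [Nat.choose_eq_zero_of_lt (by omega)]; simp

theorem sum_Aq (m : ℕ) :
    ∑ k ∈ range (m + 1), (2 * (k : ℚ) + 1) * (-1) ^ k * Aq k
      = ((m : ℚ) + 1) ^ 2 * ∑ l ∈ range (m + 1), (-1 : ℚ) ^ l * (bb m l : ℚ) * (gg l / (l + 1)) := by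
  have h1 : ∀ k ∈ range (m + 1), (2 * (k : ℚ) + 1) * (-1) ^ k * Aq k
      = ∑ l ∈ range (m + 1), (2 * (k : ℚ) + 1) * aa k l * ((-1) ^ l * gg l) := by
    intro k hk
    have hk' : k ≤ m := Nat.lt_succ_iff.mp (Finset.mem_range.mp hk)
    rw [Aq_eq, Finset.mul_sum]
    have h2 : ∑ l ∈ range (m + 1), (2 * (k : ℚ) + 1) * aa k l * ((-1) ^ l * gg l)
        = ∑ l ∈ range (k + 1), (2 * (k : ℚ) + 1) * aa k l * ((-1) ^ l * gg l) := by
      symm
      apply Finset.sum_subset (Finset.range_mono (by omega))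
      intro l _ hl
      rw [Finset.mem_range, not_lt] at hl
      rw [aa_zero_of_lt (by omega)]; simp
    rw [h2]
    apply Finset.sum_congr rfl
    intro l hl
    have hl' : l ≤ k := Nat.lt_succ_iff.mp (Finset.mem_range.mp hl)
    have h3 : (-1 : ℚ) ^ k * (-1) ^ (k - l) = (-1) ^ l := by
      obtain ⟨e, he⟩ := Nat.exists_eq_add_of_le hl'
      subst he
      have : l + e - l = e := by omega
      rw [this, pow_add, mul_assoc, ← pow_add, ← two_mul, pow_mul]; simp
    rw [← h3]; ring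
  rw [Finset.sum_congr rfl h1, Finset.sum_comm, Finset.mul_sum]
  apply Finset.sum_congr rfl
  intro l _
  rw [← Finset.sum_mul]
  have h4 := sum_aa l m
  have h5 : ((l : ℚ) + 1) ≠ 0 := by positivity
  have h6 : ∑ k ∈ range (m + 1), (2 * (k : ℚ) + 1) * aa k l
      = ((m : ℚ) + 1) ^ 2 * (bb m l : ℚ) / ((l : ℚ) + 1) := by
    rw [eq_div_iff h5, ← h4]; ring
  rw [h6]
  field_simp

end Pool.Agent.R440.DC
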