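import Mathlib
import Pool.Agent.R440.DC.A

/-!
Central binomial convolutions and the integer form of `g_l(1/4)/(l+1)`.
-/

set_option autoImplicit false

namespace Pool.Agent.R440.DC

open Finset Nat

/-- `C(2k,k)/4^k` -/
def Xq (k : ℕ) : ℚ := (Nat.centralBinom k : ℚ) / 4 ^ k

theorem Xq_zero : Xq 0 = 1 := by simp [Xq]

theorem Xq_succ (k : ℕ) : ((k : ℚ) + 1) * Xq (k + 1) = ((k : ℚ) + 1 / 2) * Xq k := by
  have h := Nat.succ_mul_centralBinom_succ k
  have h' : ((k : ℚ) + 1) * (Nat.centralBinom (k + 1) : ℚ)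
      = 2 * (2 * (k : ℚ) + 1) * (Nat.centralBinom k : ℚ) := by exact_mod_cast h
  unfold Xq
  rw [pow_succ]
  field_simp
  linear_combination 2 * h'

theorem conv_zero (M : ℕ) : ∑ i ∈ range (M + 1), Xq i * Xq (M - i) = 1 := by
  have key : ∀ M : ℕ, 2 * ∑ i ∈ range (M + 1), (i : ℚ) * (Xq i * Xq (M - i))
      = (M : ℚ) * ∑ i ∈ range (M + 1), Xq i * Xq (M - i) := by
    intro M
    have h1 : ∑ i ∈ range (M + 1), (i : ℚ) * (Xq i * Xq (M - i))
        = ∑ i ∈ range (M + 1), ((M : ℚ) - i) * (Xq i * Xq (M - i)) := by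
      rw [← Finset.sum_range_reflect]
      apply Finset.sum_congr rfl
      intro i hi
      have hi' : i ≤ M := Nat.lt_succ_iff.mp (Finset.mem_range.mp hi)
      have e1 : M + 1 - 1 - i = M - i := by omega
      have e2 : M - (M - i) = i := by omega
      rw [e1, e2, Nat.cast_sub hi']; ring
    calc 2 * ∑ i ∈ range (M + 1), (i : ℚ) * (Xq i * Xq (M - i))
        = ∑ i ∈ range (M + 1), (i : ℚ) * (Xq i * Xq (M - i))
          + ∑ i ∈ range (M + 1), ((M : ℚ) - i) * (Xq i * Xq (M - i)) := by rw [← h1]; ring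
      _ = (M : ℚ) * ∑ i ∈ range (M + 1), Xq i * Xq (M - i) := by
          rw [← Finset.sum_add_distrib, Finset.mul_sum]
          apply Finset.sum_congr rfl
          intro i _; ring
  induction M with
  | zero => simp [Xq_zero]
  | succ M ih =>
    have h1 := key (M + 1)
    have h2 : ∑ i ∈ range (M + 1 + 1), (i : ℚ) * (Xq i * Xq (M + 1 - i))
        = ∑ i ∈ range (M + 1), ((i : ℚ) + 1 / 2) * (Xq i * Xq (M - i)) := by
      rw [Finset.sum_range_succ']
      have : ((0 : ℕ) : ℚ) * (Xq 0 * Xq (M + 1 - 0)) = 0 := by simp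
      rw [this, add_zero]
      apply Finset.sum_congr rfl
      intro i _
      have e1 : M + 1 - (i + 1) = M - i := by omega
      rw [e1]
      have := Xq_succ i
      push_cast
      linear_combination (Xq (M - i)) * this
    have h3 : 2 * ∑ i ∈ range (M + 1), ((i : ℚ) + 1 / 2) * (Xq i * Xq (M - i))
        = ((M : ℚ) + 1) * ∑ i ∈ range (M + 1), Xq i * Xq (M - i) := by
      have : ∑ i ∈ range (M + 1), ((i : ℚ) + 1 / 2) * (Xq i * Xq (M - i))
          = ∑ i ∈ range (M + 1), (i : ℚ) * (Xq i * Xq (M - i))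
            + (1 / 2) * ∑ i ∈ range (M + 1), Xq i * Xq (M - i) := by
        rw [Finset.mul_sum, ← Finset.sum_add_distrib]
        apply Finset.sum_congr rfl
        intro i _; ring
      rw [this, mul_add, key M]; ring
    rw [h2, h3, ih] at h1
    have h4 : ((M : ℚ) + 1) ≠ 0 := by positivity
    push_cast at h1
    have h5 : ((M : ℚ) + 1) * (∑ i ∈ range (M + 1 + 1), Xq i * Xq (M + 1 - i)) = ((M : ℚ) + 1) * 1 := by
      rw [← h1]
    exact mul_left_cancel₀ h4 h5

/-- `(j+1/2)_i / i!` -/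
def Zq (j : ℕ) : ℕ → ℚ
  | 0 => 1
  | i + 1 => Zq j i * ((j : ℚ) + 1 / 2 + i) / (i + 1)

theorem Zq_zero_left (i : ℕ) : Zq 0 i = Xq i := by
  induction i with
  | zero => simp [Zq, Xq_zero]
  | succ i ih =>
    have h := Xq_succ i
    have h1 : ((i : ℚ) + 1) ≠ 0 := by positivity
    rw [Zq, ih]
    apply mul_left_cancel₀ h1
    rw [h]
    field_simp
    push_cast
    ring

theorem Zq_rel (j i : ℕ) : ((j : ℚ) + 1 / 2) * Zq (j + 1) i = ((j : ℚ) + 1 / 2 + i) * Zq j i := by
  induction i with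
  | zero => simp [Zq]
  | succ i ih =>
    have h1 : ((i : ℚ) + 1) ≠ 0 := by positivity
    rw [Zq, Zq]
    push_cast
    field_simp
    linear_combination (2 * ((j : ℚ) + 1 + 1 / 2 + i)) * ih * 2

theorem Zq_pascal (j i : ℕ) : Zq (j + 1) (i + 1) = Zq (j + 1) i + Zq j (i + 1) := by
  have h := Zq_rel j i
  have h1 : ((i : ℚ) + 1) ≠ 0 := by positivity
  rw [Zq, Zq]
  push_cast
  field_simp
  linear_combination 2 * h

theorem conv_eq (j M : ℕ) : ∑ i ∈ range (M + 1), Zq j i * Xq (M - i) = ((M + j).choose j : ℚ) := by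
  induction j generalizing M with
  | zero =>
    have : ∀ i ∈ range (M + 1), Zq 0 i * Xq (M - i) = Xq i * Xq (M - i) := by
      intro i _; rw [Zq_zero_left]
    rw [Finset.sum_congr rfl this, conv_zero]; simp
  | succ j ihj =>
    induction M with
    | zero => simp [Zq, Xq_zero]
    | succ M ihM =>
      have e1 := ihj (M + 1)
      rw [Finset.sum_range_succ'] at e1 ⊢
      have h1 : ∀ i ∈ range (M + 1), Zq (j + 1) (i + 1) * Xq (M + 1 - (i + 1))
          = Zq (j + 1) i * Xq (M - i) + Zq j (i + 1) * Xq (M + 1 - (i + 1)) := by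
        intro i _
        have e1 : M + 1 - (i + 1) = M - i := by omega
        rw [e1, Zq_pascal]; ring
      rw [Finset.sum_congr rfl h1, Finset.sum_add_distrib, ihM]
      have h2 : Zq (j + 1) 0 = Zq j 0 := by simp [Zq]
      rw [h2, add_assoc, e1]
      have h3 : (M + 1 + (j + 1)).choose (j + 1) = (M + (j + 1)).choose (j + 1) + (M + 1 + j).choose j := by
        have : M + 1 + (j + 1) = (M + 1 + j) + 1 := by ring
        rw [this, Nat.choose_succ_succ, add_comm]
        congr 2; ring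
      rw [h3]; push_cast; rfl

theorem Xq_choose (j i : ℕ) : Xq (j + i) * ((j + i).choose j : ℚ) = Xq j * Zq j i := by
  induction i with
  | zero => simp [Zq]
  | succ i ih =>
    have h1 := Xq_succ (j + i)
    have h2 : ((j + i).choose j : ℚ) * ((j : ℚ) + i + 1) = (j + i + 1).choose j * ((i : ℚ) + 1) := by
      have := Nat.choose_mul_succ_eq (j + i) j
      have h2 : (((j + i).choose j * (j + i + 1) : ℕ) : ℚ)
          = (((j + i + 1).choose j * (j + i + 1 - j) : ℕ) : ℚ) := by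
        rw [this]
      have h3 : j + i + 1 - j = i + 1 := by omega
      rw [h3] at h2
      push_cast at h2
      exact h2
    have h3 : ((i : ℚ) + 1) ≠ 0 := by positivity
    have h4 : ((j : ℚ) + i + 1) ≠ 0 := by positivity
    have e1 : j + (i + 1) = j + i + 1 := by ring
    rw [e1, Zq]
    push_cast at h1
    apply mul_left_cancel₀ (mul_ne_zero h3 h4)
    have h5 : (i + 1 : ℚ) * (j + i + 1) * (Xq j * (Zq j i * ((j : ℚ) + 1 / 2 + i) / (i + 1)))
        = (j + i + 1) * (Xq j * Zq j i) * ((j : ℚ) + 1 / 2 + i) := by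
      field_simp
    rw [h5, ← ih]
    linear_combination ((i : ℚ) + 1) * ((j + i + 1).choose j : ℚ) * h1
      - ((j : ℚ) + i + 1 / 2) * Xq (j + i) * h2

theorem gg_eq_Xq (l : ℕ) : gg l = ∑ j ∈ range (l + 1), (l.choose j : ℚ) ^ 2 * Xq j := by
  unfold gg
  apply Finset.sum_congr rfl
  intro j _
  unfold Xq
  rw [Nat.centralBinom]
  rw [one_div, inv_pow]
  ring

theorem choose_vand (l k : ℕ) (hk : k ≤ l) :
    ((l + k).choose k : ℚ) = ∑ j ∈ range (l + 1), (l.choose j : ℚ) * (k.choose j : ℚ) := by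
  rw [Nat.add_choose_eq, Finset.Nat.sum_antidiagonal_eq_sum_range_succ_mk]
  push_cast
  have : ∑ j ∈ range (l + 1), (l.choose j : ℚ) * (k.choose j : ℚ)
      = ∑ j ∈ range (k + 1), (l.choose j : ℚ) * (k.choose j : ℚ) := by
    symm
    apply Finset.sum_subset (Finset.range_mono (by omega))
    intro j _ hj
    rw [Finset.mem_range, not_lt] at hj
    rw [Nat.choose_eq_zero_of_lt (show k < j by omega)]; simp
  rw [this]
  apply Finset.sum_congr rfl
  intro j hj
  have hj' : j ≤ k := Nat.lt_succ_iff.mp (Finset.mem_range.mp hj)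
  rw [Nat.choose_symm hj']

theorem gg_eq (l : ℕ) :
    gg l = ∑ k ∈ range (l + 1), ((l + k).choose k : ℚ) * Xq k * Xq (l - k) := by
  have h1 : ∀ k ∈ range (l + 1), ((l + k).choose k : ℚ) * Xq k * Xq (l - k)
      = ∑ j ∈ range (l + 1), (l.choose j : ℚ) * ((k.choose j : ℚ) * Xq k * Xq (l - k)) := by
    intro k hk
    rw [choose_vand l k (Nat.lt_succ_iff.mp (Finset.mem_range.mp hk)), Finset.sum_mul,
      Finset.sum_mul]
    apply Finset.sum_congr rfl
    intro j _; ring
  rw [Finset.sum_congr rfl h1, Finset.sum_comm, gg_eq_Xq]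
  apply Finset.sum_congr rfl
  intro j hj
  obtain ⟨M, hM⟩ := Nat.exists_eq_add_of_le (Nat.lt_succ_iff.mp (Finset.mem_range.mp hj))
  rw [← Finset.mul_sum]
  have h2 : l + 1 = j + (M + 1) := by omega
  rw [h2, Finset.sum_range_add]
  have h3 : ∑ k ∈ range j, (k.choose j : ℚ) * Xq k * Xq (l - k) = 0 := by
    apply Finset.sum_eq_zero
    intro k hk
    rw [Nat.choose_eq_zero_of_lt (Finset.mem_range.mp hk)]; simp
  rw [h3, zero_add]
  have h4 : ∀ i ∈ range (M + 1), ((j + i).choose j : ℚ) * Xq (j + i) * Xq (l - (j + i))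
      = Xq j * (Zq j i * Xq (M - i)) := by
    intro i _
    have e : l - (j + i) = M - i := by omega
    rw [e, ← mul_assoc, ← Xq_choose]; ring
  rw [Finset.sum_congr rfl h4, ← Finset.mul_sum, conv_eq]
  have e : M + j = l := by omega
  rw [e]; ring

/-- ballot numbers, with the value `[k = 0]` at `j = 0` -/
def BB (j k : ℕ) : ℤ :=
  if k = 0 then 1 else ((j + 2 * k - 1).choose k : ℤ) - ((j + 2 * k - 1).choose (k - 1) : ℤ)

/-- the integer `4^l g_l(1/4) / (l+1)` -/
def uu (l : ℕ) : ℤ :=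
  ∑ k ∈ range (l + 1), (Nat.centralBinom k : ℤ) * (catalan (l - k) : ℤ) * BB (l - k + 1) k

theorem catalan_mul_BB (k m : ℕ) :
    ((k : ℚ) + m + 1) * ((catalan m : ℚ) * (BB (m + 1) k : ℚ))
      = ((m + 2 * k).choose k : ℚ) * (Nat.centralBinom m : ℚ) := by
  have h1 : ((m : ℚ) + 1) * (catalan m : ℚ) = (Nat.centralBinom m : ℚ) := by
    exact_mod_cast succ_mul_catalan_eq_centralBinom m
  have h2 : ((k : ℚ) + m + 1) * (BB (m + 1) k : ℚ) = ((m : ℚ) + 1) * ((m + 2 * k).choose k : ℚ) := by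
    rcases Nat.eq_zero_or_pos k with h | h
    · subst h; simp [BB]
    · obtain ⟨k, rfl⟩ := Nat.exists_eq_add_of_le' h
      have e1 : m + 1 + 2 * (k + 1) - 1 = m + 2 * (k + 1) := by omega
      unfold BB
      rw [if_neg (by omega), e1]
      have e2 : k + 1 - 1 = k := rfl
      rw [e2]
      have h3 := Nat.choose_succ_right_eq (m + 2 * (k + 1)) k
      have e3 : m + 2 * (k + 1) - k = m + k + 2 := by omega
      rw [e3] at h3
      have h4 : (((m + 2 * (k + 1)).choose (k + 1) : ℕ) : ℚ) * ((k : ℚ) + 1)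
          = ((m + 2 * (k + 1)).choose k : ℚ) * ((m : ℚ) + k + 2) := by exact_mod_cast h3
      push_cast
      linear_combination h4
  calc ((k : ℚ) + m + 1) * ((catalan m : ℚ) * (BB (m + 1) k : ℚ))
      = (catalan m : ℚ) * (((k : ℚ) + m + 1) * (BB (m + 1) k : ℚ)) := by ring
    _ = (((m : ℚ) + 1) * (catalan m : ℚ)) * ((m + 2 * k).choose k : ℚ) := by rw [h2]; ring
    _ = _ := by rw [h1]; ring

theorem uu_eq (l : ℕ) : ((l : ℚ) + 1) * (uu l : ℚ) = 4 ^ l * gg l := by
  rw [gg_eq]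
  unfold uu
  push_cast
  rw [Finset.mul_sum, Finset.mul_sum]
  apply Finset.sum_congr rfl
  intro k hk
  obtain ⟨m, hm⟩ := Nat.exists_eq_add_of_le (Nat.lt_succ_iff.mp (Finset.mem_range.mp hk))
  have e1 : l - k = m := by omega
  rw [e1]
  have h := catalan_mul_BB k m
  have e2 : l + k = m + 2 * k := by omega
  rw [e2]
  have e3 : (l : ℚ) + 1 = (k : ℚ) + m + 1 := by rw [hm]; push_cast; ring
  rw [e3]
  unfold Xq
  have e4 : (4 : ℚ) ^ l = 4 ^ k * 4 ^ m := by rw [hm, pow_add]
  rw [e4]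
  have h5 : (4 : ℚ) ^ k ≠ 0 := by positivity
  have h6 : (4 : ℚ) ^ m ≠ 0 := by positivity
  field_simp
  linear_combination (Nat.centralBinom k : ℚ) * h

end Pool.Agent.R440.DC
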