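import Mathlib
import Pool.Agent.R440.WZ
import Pool.Agent.R440.DC.B

/-!
The 2-adic part for the sums `s(n)`.
-/

set_option autoImplicit false

namespace Pool.Agent.R440.DC

open Finset Nat

/-- integer form of `4^m s(m+1)` -/
def SS (m : ℕ) : ℤ := ∑ l ∈ range (m + 1), (-1) ^ l * bb m l * uu l * 4 ^ (m - l)

theorem SS_eq (m : ℕ) :
    ∑ k ∈ range (m + 1), (2 * (k : ℚ) + 1) * (-1) ^ k * Aq k
      = ((m : ℚ) + 1) ^ 2 * ((SS m : ℚ) / 4 ^ m) := by
  rw [sum_Aq]
  congr 1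
  unfold SS
  push_cast
  rw [Finset.sum_div]
  apply Finset.sum_congr rfl
  intro l hl
  obtain ⟨e, he⟩ := Nat.exists_eq_add_of_le (Nat.lt_succ_iff.mp (Finset.mem_range.mp hl))
  have e1 : m - l = e := by omega
  rw [e1]
  have h := uu_eq l
  have h1 : ((l : ℚ) + 1) ≠ 0 := by positivity
  have h2 : (4 : ℚ) ^ m = 4 ^ l * 4 ^ e := by rw [he, pow_add]
  rw [h2]
  have h3 : (4 : ℚ) ^ l ≠ 0 := by positivity
  have h4 : (4 : ℚ) ^ e ≠ 0 := by positivity
  field_simp
  linear_combination (-(bb m l : ℚ)) * h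

/-- 2-adic valuation of a factorial -/
def w2 (n : ℕ) : ℕ := (n !).factorization 2

theorem w2_even (n : ℕ) : w2 (2 * n) = w2 n + n := v2_even n
theorem w2_odd (n : ℕ) : w2 (2 * n + 1) = w2 n + n := v2_odd n
theorem w2_lt {n : ℕ} (h : n ≠ 0) : w2 n < n := v2_lt h
theorem w2_mono {m n : ℕ} (h : m ≤ n) : w2 m ≤ w2 n :=
  (Nat.factorization_le_iff_dvd (Nat.factorial_ne_zero _) (Nat.factorial_ne_zero _)).mpr
      (Nat.factorial_dvd_factorial h) 2

theorem w2_add (a b : ℕ) : w2 a + w2 b ≤ w2 (a + b) := by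
  have h := (Nat.factorization_le_iff_dvd (mul_ne_zero (Nat.factorial_ne_zero a)
    (Nat.factorial_ne_zero b)) (Nat.factorial_ne_zero (a + b))).mpr
      (Nat.factorial_mul_factorial_dvd_factorial_add a b) 2
  rw [Nat.factorization_mul (Nat.factorial_ne_zero _) (Nat.factorial_ne_zero _)] at h
  exact h

theorem w2_le_pred (m : ℕ) : w2 (m + 1) ≤ m := by
  have := w2_lt (n := m + 1) (by omega); omega

theorem w2_zero : w2 0 = 0 := by simp [w2]

/-- exact power of two in a natural number -/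
theorem exact_two {n v : ℕ} (hn : n ≠ 0) (h : n.factorization 2 = v) : ∃ o, n = 2 ^ v * o ∧ Odd o := by
  refine ⟨n / 2 ^ v, ?_, ?_⟩
  · rw [← h]; exact (Nat.ordProj_mul_ordCompl_eq_self n 2).symm
  · rw [← h]
    have h1 := Nat.not_dvd_ordCompl Nat.prime_two hn
    rw [← Nat.not_even_iff_odd, even_iff_two_dvd]; exact h1

theorem cb_fact (m : ℕ) : (Nat.centralBinom m).factorization 2 = m - w2 m := by
  have h1 : Nat.centralBinom m * (m ! * m !) = (2 * m)! := by
    have := Nat.add_choose_mul_factorial_mul_factorial m m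
    rw [Nat.centralBinom, two_mul, ← this]; ring
  have h2 : (Nat.centralBinom m * (m ! * m !)).factorization 2 = ((2 * m)!).factorization 2 := by
    rw [h1]
  rw [Nat.factorization_mul (Nat.centralBinom_ne_zero m)
    (mul_ne_zero (Nat.factorial_ne_zero _) (Nat.factorial_ne_zero _)),
    Nat.factorization_mul (Nat.factorial_ne_zero _) (Nat.factorial_ne_zero _)] at h2
  simp only [Finsupp.add_apply] at h2
  have h3 := w2_even m
  unfold w2 at *
  omega

theorem catalan_ne (m : ℕ) : catalan m ≠ 0 := by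
  intro h
  have := succ_mul_catalan_eq_centralBinom m
  rw [h] at this
  exact Nat.centralBinom_ne_zero m (by simpa using this.symm)

theorem succ_fact (m : ℕ) : w2 m + (m + 1).factorization 2 = w2 (m + 1) := by
  unfold w2
  rw [Nat.factorial_succ, Nat.factorization_mul (by omega) (Nat.factorial_ne_zero _)]
  simp only [Finsupp.add_apply]
  ring

theorem cat_fact (m : ℕ) : (catalan m).factorization 2 = m - w2 (m + 1) := by
  have h1 := succ_mul_catalan_eq_centralBinom m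
  have h2 : ((m + 1) * catalan m).factorization 2 = (Nat.centralBinom m).factorization 2 := by
    rw [h1]
  rw [Nat.factorization_mul (by omega) (catalan_ne m), cb_fact] at h2
  simp only [Finsupp.add_apply] at h2
  have h3 := succ_fact m
  omega

/-- parity indicator -/
def od (m : ℕ) : ℤ := if Even m then 0 else 1

theorem dvd_of_exact {v a : ℕ} {o x : ℤ} (ho : Odd o) (h : (2 : ℤ) ^ (v + a) ∣ 2 ^ v * o * x) :
    (2 : ℤ) ^ a ∣ x := by
  rw [pow_add, mul_assoc] at h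
  have h1 : (2 : ℤ) ^ a ∣ o * x := (mul_dvd_mul_iff_left (by positivity)).mp h
  have h2 : IsCoprime ((2 : ℤ) ^ a) o := by
    apply IsCoprime.pow_left
    rw [Int.isCoprime_iff_gcd_eq_one]
    exact Int.isCoprime_iff_gcd_eq_one.mp (Int.isCoprime_two_left.mpr ho)
  exact h2.dvd_of_dvd_mul_left h1

/-- integer form of `4^m g_m(1/4)` -/
def GG (m : ℕ) : ℤ := ∑ j ∈ range (m + 1), (m.choose j : ℤ) ^ 2 * (Nat.centralBinom j : ℤ) * 4 ^ (m - j)

theorem GG_eq (m : ℕ) : ((m : ℤ) + 1) * uu m = GG m := by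
  have h := uu_eq m
  have h1 : (4 : ℚ) ^ m * gg m = (GG m : ℚ) := by
    unfold gg GG
    push_cast
    rw [Finset.mul_sum]
    apply Finset.sum_congr rfl
    intro j hj
    obtain ⟨e, he⟩ := Nat.exists_eq_add_of_le (Nat.lt_succ_iff.mp (Finset.mem_range.mp hj))
    have e1 : m - j = e := by omega
    rw [e1]
    have h2 : (4 : ℚ) ^ m = 4 ^ j * 4 ^ e := by rw [he, pow_add]
    rw [h2, Nat.centralBinom, one_div, inv_pow]
    have h3 : (4 : ℚ) ^ j ≠ 0 := by positivity
    field_simp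
  rw [h1] at h
  exact_mod_cast h

theorem two_pow_dvd_cb (j : ℕ) : (2 : ℤ) ^ (j - w2 j) ∣ (Nat.centralBinom j : ℤ) := by
  obtain ⟨o, ho, _⟩ := exact_two (Nat.centralBinom_ne_zero j) (cb_fact j)
  rw [ho]; push_cast; exact Dvd.intro _ rfl

theorem w2_le (m : ℕ) : w2 m ≤ m := by
  rcases Nat.eq_zero_or_pos m with h | h
  · subst h; simp [w2_zero]
  · exact (w2_lt h.ne').le

theorem GG_mod (m : ℕ) :
    (2 : ℤ) ^ (m - w2 m + 2) ∣ GG m - (Nat.centralBinom m : ℤ) * (1 + 2 * od m) := by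
  rcases Nat.eq_zero_or_pos m with h0 | h0
  · subst h0
    simp [GG, od]
  obtain ⟨m, rfl⟩ := Nat.exists_eq_add_of_le' h0
  unfold GG
  rw [Finset.sum_range_succ, Finset.sum_range_succ]
  have e1 : m + 1 - (m + 1) = 0 := by omega
  have e2 : m + 1 - m = 1 := by omega
  rw [e1, e2]
  have hs : (2 : ℤ) ^ (m + 1 - w2 (m + 1) + 2) ∣ ∑ j ∈ range m, ((m + 1).choose j : ℤ) ^ 2
      * (Nat.centralBinom j : ℤ) * 4 ^ (m + 1 - j) := by
    apply Finset.dvd_sum
    intro j hj
    have hj' : j < m := Finset.mem_range.mp hj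
    have h1 := two_pow_dvd_cb j
    have h2 : (2 : ℤ) ^ (m + 1 - w2 (m + 1) + 2) ∣ 2 ^ (j - w2 j) * 4 ^ (m + 1 - j) := by
      have : (4 : ℤ) ^ (m + 1 - j) = 2 ^ (2 * (m + 1 - j)) := by
        rw [pow_mul]; norm_num
      rw [this, ← pow_add]
      apply pow_dvd_pow
      have h3 := w2_mono (show j ≤ m + 1 by omega)
      have h4 := w2_le j
      have h5 := w2_le (m + 1)
      omega
    have h3 : (2 : ℤ) ^ (j - w2 j) * 4 ^ (m + 1 - j) ∣ ((m + 1).choose j : ℤ) ^ 2
        * (Nat.centralBinom j : ℤ) * 4 ^ (m + 1 - j) := by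
      rw [mul_assoc]
      exact dvd_mul_of_dvd_right (mul_dvd_mul h1 (dvd_refl _)) _
    exact h2.trans h3
  have hm : (2 : ℤ) ^ (m + 1 - w2 (m + 1) + 2) ∣ ((m + 1).choose m : ℤ) ^ 2
      * (Nat.centralBinom m : ℤ) * 4 ^ 1 - 2 * od (m + 1) * (Nat.centralBinom (m + 1) : ℤ) := by
    have h1 : ((m + 1).choose m : ℤ) = (m : ℤ) + 1 := by
      rw [Nat.choose_succ_self_right]; push_cast; ring
    rw [h1]
    have h2 := Nat.succ_mul_centralBinom_succ m
    have h2' : ((m : ℤ) + 1) * (Nat.centralBinom (m + 1) : ℤ)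
        = 2 * (2 * (m : ℤ) + 1) * (Nat.centralBinom m : ℤ) := by exact_mod_cast h2
    have h3 : Odd (2 * (m : ℤ) + 1) := ⟨m, rfl⟩
    have h4 : (2 * (m : ℤ) + 1) * (((m : ℤ) + 1) ^ 2 * (Nat.centralBinom m : ℤ) * 4 ^ 1
        - 2 * od (m + 1) * (Nat.centralBinom (m + 1) : ℤ))
        = (Nat.centralBinom (m + 1) : ℤ) * (2 * (((m : ℤ) + 1) ^ 3 - od (m + 1) * (2 * m + 1))) := by
      linear_combination (-2 * ((m : ℤ) + 1) ^ 2) * h2'
    have h5 : (4 : ℤ) ∣ 2 * (((m : ℤ) + 1) ^ 3 - od (m + 1) * (2 * m + 1)) := by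
      rcases Nat.even_or_odd m with hm | hm
      · obtain ⟨r, hr⟩ := hm
        have : ¬ Even (m + 1) := by
          rw [Nat.not_even_iff_odd]; exact ⟨r, by omega⟩
        unfold od
        rw [if_neg this]
        have : (m : ℤ) = 2 * r := by rw [hr]; push_cast; ring
        rw [this]
        exact ⟨4 * (r : ℤ) ^ 3 + 6 * r ^ 2 + r, by ring⟩
      · obtain ⟨r, hr⟩ := hm
        have : Even (m + 1) := ⟨r + 1, by omega⟩
        unfold od
        rw [if_pos this]
        have : (m : ℤ) = 2 * r + 1 := by rw [hr]; push_cast; ring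
        rw [this]
        exact ⟨4 * ((r : ℤ) + 1) ^ 3, by ring⟩
    have h6 : (2 : ℤ) ^ (m + 1 - w2 (m + 1) + 2) ∣ (2 * (m : ℤ) + 1) *
        (((m : ℤ) + 1) ^ 2 * (Nat.centralBinom m : ℤ) * 4 ^ 1
        - 2 * od (m + 1) * (Nat.centralBinom (m + 1) : ℤ)) := by
      rw [h4, pow_add]
      exact mul_dvd_mul (two_pow_dvd_cb (m + 1)) (by norm_num; exact h5)
    have h7 := dvd_of_exact (v := 0) (a := m + 1 - w2 (m + 1) + 2) h3 (by
      rw [zero_add, pow_zero, one_mul]; exact h6)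
    exact h7
  have hfin := dvd_add hs hm
  have e3 : ∀ S c b d : ℤ, S + c + ((m + 1).choose (m + 1) : ℤ) ^ 2 * b * 4 ^ 0 - b * (1 + 2 * d)
      = S + (c - 2 * d * b) := by
    intro S c b d
    rw [Nat.choose_self]; push_cast; ring
  rw [e3]
  exact hfin

theorem uu_mod (m : ℕ) :
    (2 : ℤ) ^ (m - w2 (m + 1) + 2) ∣ uu m - (catalan m : ℤ) * (1 + 2 * od m) := by
  have h1 := GG_mod m
  have h2 := GG_eq m
  have h3 : ((m : ℤ) + 1) * (catalan m : ℤ) = (Nat.centralBinom m : ℤ) := by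
    exact_mod_cast succ_mul_catalan_eq_centralBinom m
  obtain ⟨o, ho, hodd⟩ := exact_two (n := m + 1) (v := (m + 1).factorization 2) (by omega) rfl
  have h4 : ((m : ℤ) + 1) = 2 ^ ((m + 1).factorization 2) * (o : ℤ) := by exact_mod_cast ho
  have h5 : GG m - (Nat.centralBinom m : ℤ) * (1 + 2 * od m)
      = 2 ^ ((m + 1).factorization 2) * (o : ℤ) * (uu m - (catalan m : ℤ) * (1 + 2 * od m)) := by
    rw [← h4, ← h2, ← h3]; ring
  rw [h5] at h1
  have h6 := succ_fact m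
  have h7 := w2_le_pred m
  have h8 : m - w2 m + 2 = (m + 1).factorization 2 + (m - w2 (m + 1) + 2) := by omega
  rw [h8] at h1
  exact dvd_of_exact (by exact_mod_cast hodd) h1

theorem two_pow_dvd_uu (m : ℕ) : (2 : ℤ) ^ (m - w2 (m + 1)) ∣ uu m := by
  have h1 := uu_mod m
  have h2 : (2 : ℤ) ^ (m - w2 (m + 1)) ∣ uu m - (catalan m : ℤ) * (1 + 2 * od m) :=
    (pow_dvd_pow 2 (by omega)).trans h1
  have h3 : (2 : ℤ) ^ (m - w2 (m + 1)) ∣ (catalan m : ℤ) := by
    obtain ⟨o, ho, _⟩ := exact_two (catalan_ne m) (cat_fact m)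
    rw [ho]; push_cast; exact Dvd.intro _ rfl
  have h4 := dvd_add h2 (h3.mul_right (1 + 2 * od m))
  simpa using h4

end Pool.Agent.R440.DC
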