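import Mathlib
import Pool.Agent.R440.WZ
import Pool.Agent.R440.DC.C

/-!
The exact power of two and the residue modulo 4 of the integer form of `s(n)`.
-/

set_option autoImplicit false

namespace Pool.Agent.R440.DC

open Finset Nat

theorem low_ineq (l d : ℕ) (hd : 1 ≤ d) :
    2 * w2 l + w2 d + w2 (l + 1) + l + 2 ≤ w2 (l + d) + w2 (l + d + 1 + l) + w2 (l + d + 1) := by
  have h2 : w2 2 = 1 := by
    have := w2_even 1
    have h1 : w2 1 = 0 := by simp [w2]
    rw [h1] at this; simpa using this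
  rcases Nat.lt_or_ge d 2 with h | h
  · have : d = 1 := by omega
    subst this
    have e1 : l + 1 + 1 + l = 2 * (l + 1) := by ring
    rw [e1, w2_even]
    have h3 := w2_mono (show l ≤ l + 1 by omega)
    have h4 := w2_add l 2
    have e2 : l + 1 + 1 = l + 2 := by ring
    rw [e2]
    have h5 : w2 1 = 0 := by simp [w2]
    omega
  · have e1 : l + d + 1 + l = (2 * l + 1) + d := by ring
    have h3 := w2_add (2 * l + 1) d
    rw [w2_odd] at h3
    rw [e1]
    have h4 := w2_add (l + 1) d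
    have e2 : l + d + 1 = (l + 1) + d := by ring
    rw [e2]
    have h5 := w2_add l d
    have h6 := w2_mono h
    omega

theorem bbn_fact (l d : ℕ) :
    ((l + d).choose l * (l + d + 1 + l).choose l).factorization 2 + 2 * w2 l + w2 d + w2 (l + d + 1)
      = w2 (l + d) + w2 (l + d + 1 + l) := by
  have h1 : (l + d).choose l * l ! * d ! = (l + d)! := by
    have := Nat.choose_mul_factorial_mul_factorial (show l ≤ l + d by omega)
    have e : l + d - l = d := by omega
    rw [e] at this; exact this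
  have h2 : (l + d + 1 + l).choose l * l ! * (l + d + 1)! = (l + d + 1 + l)! := by
    have := Nat.choose_mul_factorial_mul_factorial (show l ≤ l + d + 1 + l by omega)
    have e : l + d + 1 + l - l = l + d + 1 := by omega
    rw [e] at this; exact this
  have hne : ∀ n : ℕ, n ! ≠ 0 := Nat.factorial_ne_zero
  have hc1 : (l + d).choose l ≠ 0 := Nat.choose_ne_zero_iff.mpr (by omega)
  have hc2 : (l + d + 1 + l).choose l ≠ 0 := Nat.choose_ne_zero_iff.mpr (by omega)
  have f1 : ((l + d).choose l).factorization 2 + w2 l + w2 d = w2 (l + d) := by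
    unfold w2
    rw [← h1, Nat.factorization_mul (mul_ne_zero hc1 (hne _)) (hne _),
      Nat.factorization_mul hc1 (hne _)]
    simp only [Finsupp.add_apply]
  have f2 : ((l + d + 1 + l).choose l).factorization 2 + w2 l + w2 (l + d + 1)
      = w2 (l + d + 1 + l) := by
    unfold w2
    rw [← h2, Nat.factorization_mul (mul_ne_zero hc2 (hne _)) (hne _),
      Nat.factorization_mul hc2 (hne _)]
    simp only [Finsupp.add_apply]
  rw [Nat.factorization_mul hc1 hc2]
  simp only [Finsupp.add_apply]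
  omega

theorem low_dvd (m l : ℕ) (h : l < m) :
    (4 : ℤ) ^ (m + 1 - w2 (m + 1)) ∣ bb m l * uu l * 4 ^ (m - l) := by
  obtain ⟨d, hd⟩ := Nat.exists_eq_add_of_le h.le
  subst hd
  have hd1 : 1 ≤ d := by omega
  have e0 : l + d - l = d := by omega
  rw [e0]
  obtain ⟨o, ho, _⟩ := exact_two (n := (l + d).choose l * (l + d + 1 + l).choose l)
    (mul_ne_zero (Nat.choose_ne_zero_iff.mpr (by omega)) (Nat.choose_ne_zero_iff.mpr (by omega))) rfl
  have hb : (2 : ℤ) ^ (((l + d).choose l * (l + d + 1 + l).choose l).factorization 2) ∣ bb (l + d) l := by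
    unfold bb
    have : (((l + d).choose l * (l + d + 1 + l).choose l : ℕ) : ℤ)
        = ((l + d).choose l : ℤ) * ((l + d + 1 + l).choose l : ℤ) := by push_cast; ring
    rw [← this]
    conv_rhs => rw [ho]
    push_cast
    exact Dvd.intro _ rfl
  have hu := two_pow_dvd_uu l
  have h4 : ∀ k : ℕ, (4 : ℤ) ^ k = 2 ^ (2 * k) := by intro k; rw [pow_mul]; norm_num
  rw [h4, h4]
  refine dvd_trans ?_ (mul_dvd_mul (mul_dvd_mul hb hu) (dvd_refl _))
  rw [← pow_add, ← pow_add]
  apply pow_dvd_pow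
  have h5 := bbn_fact l d
  have h6 := low_ineq l d hd1
  have h7 := w2_le_pred l
  have h8 := w2_le_pred (l + d)
  omega

theorem bb_self (m : ℕ) : bb m m = (2 * (m : ℤ) + 1) * (catalan m : ℤ) := by
  unfold bb
  rw [Nat.choose_self]
  have h1 : ((m : ℤ) + 1) * (catalan m : ℤ) = (Nat.centralBinom m : ℤ) := by
    exact_mod_cast succ_mul_catalan_eq_centralBinom m
  have h2 := Nat.choose_mul_succ_eq (m + m) m
  have e : m + m + 1 - m = m + 1 := by omega
  rw [e] at h2
  have h3 : (Nat.centralBinom m : ℤ) * (2 * (m : ℤ) + 1)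
      = ((m + m + 1).choose m : ℤ) * ((m : ℤ) + 1) := by
    have h4 : (((m + m).choose m * (m + m + 1) : ℕ) : ℤ) = (((m + m + 1).choose m * (m + 1) : ℕ) : ℤ) := by
      rw [h2]
    push_cast at h4
    rw [Nat.centralBinom, two_mul]
    push_cast
    linear_combination h4
  have e2 : m + 1 + m = m + m + 1 := by ring
  rw [e2]
  have h5 : ((m : ℤ) + 1) ≠ 0 := by positivity
  apply mul_left_cancel₀ h5
  push_cast
  rw [← h1] at h3
  linear_combination -h3

theorem SS_form (m : ℕ) : ∃ N : ℤ, SS m = 4 ^ (m - w2 (m + 1)) * N ∧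
    (Even m → N % 4 = 1) ∧ (¬ Even m → N % 4 = 3) := by
  have hlow : (4 : ℤ) ^ (m + 1 - w2 (m + 1)) ∣ ∑ l ∈ range m, (-1) ^ l * bb m l * uu l * 4 ^ (m - l) := by
    apply Finset.dvd_sum
    intro l hl
    have := low_dvd m l (Finset.mem_range.mp hl)
    have e : (-1 : ℤ) ^ l * bb m l * uu l * 4 ^ (m - l) = (-1) ^ l * (bb m l * uu l * 4 ^ (m - l)) := by
      ring
    rw [e]
    exact Dvd.dvd.mul_left this _
  obtain ⟨L, hL⟩ := hlow
  obtain ⟨K, hK⟩ := uu_mod m
  obtain ⟨o, ho, hodd⟩ := exact_two (catalan_ne m) (cat_fact m)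
  have hw := w2_le_pred m
  have e1 : m + 1 - w2 (m + 1) = m - w2 (m + 1) + 1 := by omega
  set c := m - w2 (m + 1) with hc
  have hcat : (catalan m : ℤ) = 2 ^ c * (o : ℤ) := by rw [ho]; push_cast; ring
  have h4 : (4 : ℤ) ^ c = 2 ^ c * 2 ^ c := by
    rw [← mul_pow]; norm_num
  refine ⟨(-1) ^ m * (2 * m + 1) * o * (o * (1 + 2 * od m) + 4 * K) + 4 * L, ?_, ?_, ?_⟩
  · unfold SS
    rw [Finset.sum_range_succ, hL, e1, bb_self]
    have hu : uu m = (catalan m : ℤ) * (1 + 2 * od m) + 2 ^ (c + 2) * K := by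
      rw [← hK]; ring
    rw [hu, hcat]
    have e2 : m - m = 0 := by omega
    rw [e2, pow_succ, h4, pow_add]
    ring
  · intro he
    obtain ⟨r, hr⟩ := he
    obtain ⟨q, hq⟩ := hodd
    have h1 : (-1 : ℤ) ^ m = 1 := Even.neg_one_pow ⟨r, hr⟩
    have h2 : od m = 0 := by unfold od; rw [if_pos ⟨r, hr⟩]
    rw [h1, h2]
    have h3 : (m : ℤ) = 2 * r := by rw [hr]; push_cast; ring
    have h5 : (o : ℤ) = 2 * q + 1 := by rw [hq]; push_cast; ring
    rw [h3, h5]
    have : (1 : ℤ) * (2 * (2 * (r : ℤ)) + 1) * (2 * (q : ℤ) + 1)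
        * ((2 * (q : ℤ) + 1) * (1 + 2 * 0) + 4 * K) + 4 * L
        = 1 + 4 * ((q : ℤ) ^ 2 + q + r * (2 * q + 1) ^ 2 + (4 * r + 1) * (2 * q + 1) * K + L) := by
      ring
    rw [this]
    omega
  · intro he
    rw [Nat.not_even_iff_odd] at he
    have he' := he
    obtain ⟨r, hr⟩ := he
    obtain ⟨q, hq⟩ := hodd
    have h1 : (-1 : ℤ) ^ m = -1 := Odd.neg_one_pow he'
    have h2 : od m = 1 := by unfold od; rw [if_neg (Nat.not_even_iff_odd.mpr he')]
    rw [h1, h2]
    have h3 : (m : ℤ) = 2 * r + 1 := by rw [hr]; push_cast; ring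
    have h5 : (o : ℤ) = 2 * q + 1 := by rw [hq]; push_cast; ring
    rw [h3, h5]
    have : (-1 : ℤ) * (2 * (2 * (r : ℤ) + 1) + 1) * (2 * (q : ℤ) + 1)
        * ((2 * (q : ℤ) + 1) * (1 + 2 * 1) + 4 * K) + 4 * L
        = 3 + 4 * (-3 * (r : ℤ) * (2 * q + 1) ^ 2 - 9 * (q ^ 2 + q) - 3
          - (4 * r + 3) * (2 * q + 1) * K + L) := by
      ring
    rw [this]
    omega

end Pool.Agent.R440.DC
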