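import Mathlib
import Pool.Agent.R440.DC.B

/-!
`3` divides `uu l` for `l ≥ 1` (Lucas).
-/

set_option autoImplicit false

namespace Pool.Agent.R440.DC

open Finset Nat

instance fact3 : Fact (Nat.Prime 3) := ⟨Nat.prime_three⟩

theorem luc (N K a b : ℕ) (ha : a < 3) (hb : b < 3) :
    (((3 * N + a).choose (3 * K + b) : ℕ) : ZMod 3) = ((a.choose b : ℕ) : ZMod 3) * ((N.choose K : ℕ) : ZMod 3) := by
  have h := Choose.choose_modEq_choose_mod_mul_choose_div_nat (n := 3 * N + a) (k := 3 * K + b) (p := 3)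
  have e1 : (3 * N + a) % 3 = a := by omega
  have e2 : (3 * K + b) % 3 = b := by omega
  have e3 : (3 * N + a) / 3 = N := by omega
  have e4 : (3 * K + b) / 3 = K := by omega
  rw [e1, e2, e3, e4] at h
  have h' := (ZMod.natCast_eq_natCast_iff _ _ 3).mpr h
  rw [h']; push_cast; rfl

theorem sum_range_three {M : Type*} [AddCommMonoid M] (f : ℕ → M) (n : ℕ) :
    ∑ j ∈ range (3 * n), f j = ∑ i ∈ range n, (f (3 * i) + f (3 * i + 1) + f (3 * i + 2)) := by
  induction n with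
  | zero => simp
  | succ n ih =>
    rw [Finset.sum_range_succ, ← ih]
    have : 3 * (n + 1) = 3 * n + 1 + 1 + 1 := by ring
    rw [this, Finset.sum_range_succ, Finset.sum_range_succ, Finset.sum_range_succ]
    simp only [add_assoc]

theorem cb3_0 (i : ℕ) : ((Nat.centralBinom (3 * i) : ℕ) : ZMod 3) = (Nat.centralBinom i : ZMod 3) := by
  unfold Nat.centralBinom
  have e : 2 * (3 * i) = 3 * (2 * i) + 0 := by ring
  have e' : 3 * i = 3 * i + 0 := by ring
  rw [e, e', luc _ _ 0 0 (by norm_num) (by norm_num)]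
  simp

theorem cb3_1 (i : ℕ) : ((Nat.centralBinom (3 * i + 1) : ℕ) : ZMod 3) = 2 * (Nat.centralBinom i : ZMod 3) := by
  unfold Nat.centralBinom
  have e : 2 * (3 * i + 1) = 3 * (2 * i) + 2 := by ring
  rw [e, luc _ _ 2 1 (by norm_num) (by norm_num)]
  simp

theorem cb3_2 (i : ℕ) : ((Nat.centralBinom (3 * i + 2) : ℕ) : ZMod 3) = 0 := by
  unfold Nat.centralBinom
  have e : 2 * (3 * i + 2) = 3 * (2 * i + 1) + 1 := by ring
  rw [e, luc _ _ 1 2 (by norm_num) (by norm_num)]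
  simp

theorem cat_diff (n : ℕ) : (catalan n : ℤ) = (Nat.centralBinom n : ℤ) - ((2 * n).choose (n + 1) : ℤ) := by
  have h1 : ((n : ℤ) + 1) * (catalan n : ℤ) = (Nat.centralBinom n : ℤ) := by
    exact_mod_cast succ_mul_catalan_eq_centralBinom n
  have h2 := Nat.choose_succ_right_eq (2 * n) n
  have e : 2 * n - n = n := by omega
  rw [e] at h2
  have h3 : ((2 * n).choose (n + 1) : ℤ) * ((n : ℤ) + 1) = (Nat.centralBinom n : ℤ) * n := by
    exact_mod_cast h2
  have h4 : ((n : ℤ) + 1) ≠ 0 := by positivity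
  apply mul_left_cancel₀ h4
  linear_combination h1 + h3

theorem cat3_1 (d : ℕ) : ((catalan (3 * d + 1) : ℤ) : ZMod 3) = (Nat.centralBinom d : ZMod 3) := by
  rw [cat_diff]
  push_cast
  rw [cb3_1]
  have e : 2 * (3 * d + 1) = 3 * (2 * d) + 2 := by ring
  have e' : 3 * d + 1 + 1 = 3 * d + 2 := by ring
  rw [e, e', luc _ _ 2 2 (by norm_num) (by norm_num)]
  simp only [Nat.choose_self, Nat.cast_one, one_mul]
  rw [Nat.centralBinom]; ring

theorem choose_odd (d : ℕ) : ((2 * d + 1).choose d : ℤ) = (2 * (d : ℤ) + 1) * (catalan d : ℤ) := by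
  have h1 : ((d : ℤ) + 1) * (catalan d : ℤ) = (Nat.centralBinom d : ℤ) := by
    exact_mod_cast succ_mul_catalan_eq_centralBinom d
  have h2 := Nat.choose_mul_succ_eq (2 * d) d
  have e : 2 * d + 1 - d = d + 1 := by omega
  rw [e] at h2
  have h3 : (Nat.centralBinom d : ℤ) * (2 * (d : ℤ) + 1) = ((2 * d + 1).choose d : ℤ) * ((d : ℤ) + 1) := by
    exact_mod_cast h2
  have h4 : ((d : ℤ) + 1) ≠ 0 := by positivity
  apply mul_left_cancel₀ h4
  rw [← h1] at h3
  linear_combination -h3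

theorem cat3_2 (d : ℕ) : ((catalan (3 * d + 2) : ℤ) : ZMod 3)
    = -(((2 * (d : ℤ) + 1) * (catalan d : ℤ) : ℤ) : ZMod 3) := by
  rw [cat_diff, ← choose_odd]
  push_cast
  rw [cb3_2]
  have e : 2 * (3 * d + 2) = 3 * (2 * d + 1) + 1 := by ring
  have e' : 3 * d + 2 + 1 = 3 * (d + 1) + 0 := by ring
  rw [e, e', luc _ _ 1 0 (by norm_num) (by norm_num)]
  have e2 : (2 * d + 1).choose (d + 1) = (2 * d + 1).choose d := by
    rw [← Nat.choose_symm_half]
  rw [e2]
  simp

theorem BB3_0 (d i : ℕ) : ((BB (3 * d + 3) (3 * i) : ℤ) : ZMod 3) = ((BB (d + 1) i : ℤ) : ZMod 3) := by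
  rcases Nat.eq_zero_or_pos i with h | h
  · subst h; simp [BB]
  · obtain ⟨i, rfl⟩ := Nat.exists_eq_add_of_le' h
    unfold BB
    rw [if_neg (by omega), if_neg (by omega)]
    have e1 : 3 * d + 3 + 2 * (3 * (i + 1)) - 1 = 3 * (d + 2 * (i + 1)) + 2 := by omega
    have e2 : d + 1 + 2 * (i + 1) - 1 = d + 2 * (i + 1) := by omega
    have e3 : 3 * (i + 1) - 1 = 3 * i + 2 := by omega
    have e4 : 3 * (i + 1) = 3 * (i + 1) + 0 := by ring
    have e5 : i + 1 - 1 = i := rfl
    rw [e1, e2, e3, e5]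
    push_cast
    rw [luc _ _ 2 2 (by norm_num) (by norm_num)]
    rw [e4, luc _ _ 2 0 (by norm_num) (by norm_num)]
    simp

theorem BB3_1 (d i : ℕ) : ((BB (3 * d + 2) (3 * i + 1) : ℤ) : ZMod 3)
    = -(((d + 2 * i + 1).choose i : ℕ) : ZMod 3) := by
  unfold BB
  rw [if_neg (by omega)]
  have e1 : 3 * d + 2 + 2 * (3 * i + 1) - 1 = 3 * (d + 2 * i + 1) + 0 := by omega
  have e3 : 3 * i + 1 - 1 = 3 * i + 0 := by omega
  rw [e1, e3]
  push_cast
  rw [luc _ _ 0 1 (by norm_num) (by norm_num), luc _ _ 0 0 (by norm_num) (by norm_num)]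
  simp

theorem cb_choose (d i : ℕ) : (Nat.centralBinom d : ℤ) * ((d + 2 * i + 1).choose i : ℤ)
    = (2 * ((d : ℤ) + i + 1) - (d + 1)) * ((catalan d : ℤ) * BB (d + 1) i) := by
  have h1 : ((d : ℤ) + 1) * (catalan d : ℤ) = (Nat.centralBinom d : ℤ) := by
    exact_mod_cast succ_mul_catalan_eq_centralBinom d
  rcases Nat.eq_zero_or_pos i with h | h
  · subst h
    rw [← h1]
    have e1 : BB (d + 1) 0 = 1 := by simp [BB]
    rw [e1]
    push_cast
    rw [Nat.choose_zero_right]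
    push_cast
    ring
  · obtain ⟨i, rfl⟩ := Nat.exists_eq_add_of_le' h
    have h2 : ((d : ℤ) + (i + 1) + 1) * BB (d + 1) (i + 1)
        = ((d : ℤ) + 1) * ((d + 2 * (i + 1)).choose (i + 1) : ℤ) := by
      have e1 : d + 1 + 2 * (i + 1) - 1 = d + 2 * (i + 1) := by omega
      unfold BB
      rw [if_neg (by omega), e1]
      have e2 : i + 1 - 1 = i := rfl
      rw [e2]
      have h3 := Nat.choose_succ_right_eq (d + 2 * (i + 1)) i
      have e3 : d + 2 * (i + 1) - i = d + i + 2 := by omega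
      rw [e3] at h3
      have h4 : (((d + 2 * (i + 1)).choose (i + 1) : ℕ) : ℤ) * ((i : ℤ) + 1)
          = ((d + 2 * (i + 1)).choose i : ℤ) * ((d : ℤ) + i + 2) := by exact_mod_cast h3
      linear_combination h4
    have h5 : ((d + 2 * (i + 1) + 1).choose (i + 1) : ℤ)
        = 2 * ((d + 2 * (i + 1)).choose (i + 1) : ℤ) - BB (d + 1) (i + 1) := by
      have e1 : d + 1 + 2 * (i + 1) - 1 = d + 2 * (i + 1) := by omega
      have e2 : i + 1 - 1 = i := rfl
      unfold BB
      rw [if_neg (by omega), e1, e2, Nat.choose_succ_succ]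
      push_cast; ring
    rw [h5, ← h1]
    push_cast
    linear_combination (-2 * (catalan d : ℤ)) * h2

theorem G3_mul (m d : ℕ) (hd : d < 3) :
    ∑ j ∈ range (3 * m + d + 1), (((3 * m + d).choose j : ℕ) : ZMod 3) ^ 2 * (Nat.centralBinom j : ZMod 3)
      = (1 + 2 * (d : ZMod 3) ^ 2) * ∑ j ∈ range (m + 1), ((m.choose j : ℕ) : ZMod 3) ^ 2
        * (Nat.centralBinom j : ZMod 3) := by
  have h1 : ∑ j ∈ range (3 * m + d + 1), (((3 * m + d).choose j : ℕ) : ZMod 3) ^ 2
      * (Nat.centralBinom j : ZMod 3)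
      = ∑ j ∈ range (3 * (m + 1)), (((3 * m + d).choose j : ℕ) : ZMod 3) ^ 2
      * (Nat.centralBinom j : ZMod 3) := by
    apply Finset.sum_subset (Finset.range_mono (by omega))
    intro j _ hj
    rw [Finset.mem_range, not_lt] at hj
    rw [Nat.choose_eq_zero_of_lt (by omega)]; simp
  rw [h1, sum_range_three, Finset.mul_sum]
  apply Finset.sum_congr rfl
  intro i _
  rw [cb3_0, cb3_1, cb3_2]
  have e : 3 * i = 3 * i + 0 := by ring
  rw [luc _ _ d 1 hd (by norm_num)]
  conv_lhs => rw [e]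
  rw [luc _ _ d 0 hd (by norm_num)]
  simp only [Nat.choose_zero_right, Nat.choose_one_right]
  push_cast
  ring

theorem G3_zero (l : ℕ) (hl : 1 ≤ l) :
    ∑ j ∈ range (l + 1), ((l.choose j : ℕ) : ZMod 3) ^ 2 * (Nat.centralBinom j : ZMod 3) = 0 := by
  induction l using Nat.strong_induction_on with
  | _ l ih =>
    have hdiv : l = 3 * (l / 3) + l % 3 := by omega
    have hlt : l % 3 < 3 := Nat.mod_lt _ (by norm_num)
    have h := G3_mul (l / 3) (l % 3) hlt
    rw [← hdiv] at h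
    rw [h]
    have h3 : l % 3 = 0 ∨ l % 3 = 1 ∨ l % 3 = 2 := by omega
    rcases h3 with h3 | h3 | h3
    · rw [ih (l / 3) (by omega) (by omega)]; simp
    · rw [h3]
      have : (1 + 2 * ((1 : ℕ) : ZMod 3) ^ 2) = 0 := by decide
      rw [this]; simp
    · rw [h3]
      have : (1 + 2 * ((2 : ℕ) : ZMod 3) ^ 2) = 0 := by decide
      rw [this]; simp

theorem uu3 (m : ℕ) : ((uu (3 * m + 2) : ℤ) : ZMod 3) = 2 * (m : ZMod 3) * ((uu m : ℤ) : ZMod 3) := by
  unfold uu
  have e0 : 3 * m + 2 + 1 = 3 * (m + 1) := by ring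
  rw [e0, sum_range_three]
  push_cast
  rw [Finset.mul_sum]
  apply Finset.sum_congr rfl
  intro i hi
  obtain ⟨d, hd⟩ := Nat.exists_eq_add_of_le (Nat.lt_succ_iff.mp (Finset.mem_range.mp hi))
  have a0 : 3 * m + 2 - 3 * i = 3 * d + 2 := by omega
  have a1 : 3 * m + 1 - 3 * i = 3 * d + 1 := by omega
  have a2 : m - i = d := by omega
  rw [a0, a1, a2]
  have b0 : 3 * d + 2 + 1 = 3 * d + 3 := by ring
  have b1 : 3 * d + 1 + 1 = 3 * d + 2 := by ring
  rw [b0, b1, BB3_0, BB3_1, cb3_0, cb3_1, cb3_2]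
  have c1 := cat3_1 d
  have c2 := cat3_2 d
  push_cast at c1 c2
  rw [c1, c2]
  have h := congrArg (fun z : ℤ => (z : ZMod 3)) (cb_choose d i)
  push_cast at h
  have h3 : (3 : ZMod 3) = 0 := rfl
  have hm : (m : ZMod 3) = (i : ZMod 3) + d := by rw [hd]; push_cast; ring
  rw [hm]
  linear_combination (Nat.centralBinom i : ZMod 3) * h
    + (Nat.centralBinom i : ZMod 3) * (-(Nat.centralBinom d : ZMod 3) * ((d + 2 * i + 1).choose i : ZMod 3)
      - (d : ZMod 3) * (catalan d : ZMod 3) * (BB (d + 1) i : ZMod 3)) * h3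

theorem uu_zmod3 (l : ℕ) (hl : 1 ≤ l) : ((uu l : ℤ) : ZMod 3) = 0 := by
  induction l using Nat.strong_induction_on with
  | _ l ih =>
    rcases (by omega : l % 3 = 2 ∨ l % 3 ≠ 2) with h | h
    · have hdiv : l = 3 * (l / 3) + 2 := by omega
      rw [hdiv, uu3]
      rcases Nat.eq_zero_or_pos (l / 3) with h0 | h0
      · rw [h0]; simp
      · rw [ih (l / 3) (by omega) h0]; simp
    · have h1 : ((l : ℚ) + 1) * (uu l : ℚ) = 4 ^ l * gg l := uu_eq l
      have h2 : (4 : ℚ) ^ l * gg l = ((∑ j ∈ range (l + 1), (l.choose j : ℤ) ^ 2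
          * (Nat.centralBinom j : ℤ) * 4 ^ (l - j) : ℤ) : ℚ) := by
        unfold gg
        push_cast
        rw [Finset.mul_sum]
        apply Finset.sum_congr rfl
        intro j hj
        obtain ⟨e, he⟩ := Nat.exists_eq_add_of_le (Nat.lt_succ_iff.mp (Finset.mem_range.mp hj))
        have e1 : l - j = e := by omega
        rw [e1]
        have h2 : (4 : ℚ) ^ l = 4 ^ j * 4 ^ e := by rw [he, pow_add]
        rw [h2, Nat.centralBinom, one_div, inv_pow]
        have h3 : (4 : ℚ) ^ j ≠ 0 := by positivity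
        field_simp
      rw [h2] at h1
      have h3 : ((l : ℤ) + 1) * uu l = ∑ j ∈ range (l + 1), (l.choose j : ℤ) ^ 2
          * (Nat.centralBinom j : ℤ) * 4 ^ (l - j) := by exact_mod_cast h1
      have h4 := congrArg (fun z : ℤ => (z : ZMod 3)) h3
      push_cast at h4
      have h5 : (4 : ZMod 3) = 1 := rfl
      rw [h5] at h4
      simp only [one_pow, mul_one] at h4
      rw [G3_zero l hl] at h4
      have h6 : ((l : ZMod 3) + 1) ≠ 0 := by
        intro h7
        have h8 : (((l + 1 : ℕ)) : ZMod 3) = 0 := by push_cast; exact h7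
        rw [ZMod.natCast_eq_zero_iff] at h8
        omega
      rcases mul_eq_zero.mp h4 with h7 | h7
      · exact absurd h7 h6
      · exact h7

end Pool.Agent.R440.DC
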