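import Mathlib
import Pool.Agent.R440.DC.B

/-!
A bilinear functional on polynomials computing the sums
`sum_{k+j <= c} x_k y_j B(j,k)` with ballot numbers `B(j,k)`.
-/

set_option autoImplicit false

namespace Pool.Agent.R440.DC

open Finset Nat Polynomial

variable {R : Type*} [CommRing R]

theorem BB_coeff (j k : ℕ) :
    ((BB j k : ℤ) : R) = (((1 - X) * (1 + X) ^ (j + 2 * k - 1) : R[X])).coeff k := by
  unfold BB
  rcases Nat.eq_zero_or_pos k with h | h
  · subst h
    simp [sub_mul, coeff_one_add_X_pow]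
  · obtain ⟨k, rfl⟩ := Nat.exists_eq_add_of_le' h
    rw [if_neg (by omega), sub_mul, one_mul, coeff_sub, coeff_X_mul, coeff_one_add_X_pow,
      coeff_one_add_X_pow]
    push_cast
    rfl

/-- the bilinear functional -/
noncomputable def Lam (c : ℕ) : R[X] →ₗ[R] R[X] →ₗ[R] R :=
  LinearMap.mk₂ R (fun f g => ∑ k ∈ range (c + 1), ∑ j ∈ range (c + 1 - k),
    f.coeff k * g.coeff j * ((BB j k : ℤ) : R))
    (by
      intro f f' g
      simp only [coeff_add, add_mul, Finset.sum_add_distrib])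
    (by
      intro a f g
      simp only [coeff_smul, smul_eq_mul, Finset.mul_sum, mul_assoc])
    (by
      intro f g g'
      simp only [coeff_add, mul_add, add_mul, Finset.sum_add_distrib])
    (by
      intro a f g
      simp only [coeff_smul, smul_eq_mul, Finset.mul_sum]
      apply Finset.sum_congr rfl
      intro k _
      apply Finset.sum_congr rfl
      intro j _
      ring)

theorem Lam_apply (c : ℕ) (f g : R[X]) : Lam c f g = ∑ k ∈ range (c + 1), ∑ j ∈ range (c + 1 - k),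
    f.coeff k * g.coeff j * ((BB j k : ℤ) : R) := rfl

theorem Lam_X (c u v : ℕ) :
    Lam c (X ^ u : R[X]) (X ^ v : R[X]) = if u + v ≤ c then ((BB v u : ℤ) : R) else 0 := by
  rw [Lam_apply]
  simp only [coeff_X_pow]
  split_ifs with h
  · rw [Finset.sum_eq_single u]
    · rw [Finset.sum_eq_single v]
      · simp
      · intro j _ hj
        simp [hj]
      · intro hv
        exfalso; apply hv; rw [Finset.mem_range]; omega
    · intro k _ hk
      apply Finset.sum_eq_zero
      intro j _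
      simp [hk]
    · intro hu
      exfalso; apply hu; rw [Finset.mem_range]; omega
  · apply Finset.sum_eq_zero
    intro k hk
    apply Finset.sum_eq_zero
    intro j hj
    rw [Finset.mem_range] at hk hj
    by_cases h1 : k = u
    · by_cases h2 : j = v
      · omega
      · simp [h2]
    · simp [h1]

theorem binexp {A : Type*} [CommRing A] (Y : A) (n : ℕ) :
    (1 - Y) ^ n = ∑ j ∈ range (n + 1), (-1) ^ j * (n.choose j : A) * Y ^ j := by
  have : (1 - Y) = -Y + 1 := by ring
  rw [this, add_pow]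
  apply Finset.sum_congr rfl
  intro j _
  rw [neg_pow]; ring

theorem binexp_smul (a h : ℕ) :
    (X ^ a * (1 - X) ^ h : R[X])
      = ∑ k ∈ range (h + 1), ((-1 : R) ^ k * (h.choose k : R)) • (X ^ (k + a) : R[X]) := by
  rw [binexp, Finset.mul_sum]
  apply Finset.sum_congr rfl
  intro k _
  rw [smul_eq_C_mul]
  simp only [map_mul, map_pow, map_neg, map_one, map_natCast]
  rw [pow_add]; ring

theorem Lam_shift (c a b h h' : ℕ) :
    Lam c (X ^ a * (1 - X) ^ h : R[X]) (X ^ b * (1 - X) ^ h' : R[X])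
      = ∑ k ∈ range (h + 1), ∑ j ∈ range (h' + 1),
        ((-1 : R) ^ k * (h.choose k : R)) * ((-1 : R) ^ j * (h'.choose j : R))
          * (if k + a + (j + b) ≤ c then ((BB (j + b) (k + a) : ℤ) : R) else 0) := by
  rw [binexp_smul, binexp_smul]
  simp only [map_sum, LinearMap.sum_apply, map_smul, LinearMap.smul_apply, smul_eq_mul, Lam_X]
  simp only [Finset.mul_sum]
  rw [Finset.sum_comm]
  apply Finset.sum_congr rfl
  intro k _
  apply Finset.sum_congr rfl
  intro j _
  ring

theorem Lam_edge (c a b h h' : ℕ) (hc : a + b = c) :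
    Lam c (X ^ a * (1 - X) ^ h : R[X]) (X ^ b * (1 - X) ^ h' : R[X]) = ((BB b a : ℤ) : R) := by
  rw [Lam_shift, Finset.sum_eq_single 0]
  · rw [Finset.sum_eq_single 0]
    · simp [hc]
    · intro j _ hj
      rw [if_neg (by omega)]; simp
    · intro h; simp at h
  · intro k _ hk
    apply Finset.sum_eq_zero
    intro j _
    rw [if_neg (by omega)]; simp
  · intro h; simp at h

theorem Lam_out (c a b h h' : ℕ) (hc : c < a + b) :
    Lam c (X ^ a * (1 - X) ^ h : R[X]) (X ^ b * (1 - X) ^ h' : R[X]) = 0 := by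
  rw [Lam_shift]
  apply Finset.sum_eq_zero
  intro k _
  apply Finset.sum_eq_zero
  intro j _
  rw [if_neg (by omega)]; simp

theorem Lam_full (c a b h : ℕ) (hc : a + b + 2 * h + 1 ≤ c) :
    Lam c (X ^ a * (1 - X) ^ h : R[X]) (X ^ b * (1 - X) ^ (h + 1) : R[X])
      = ∑ k ∈ range (h + 1), ∑ j ∈ range (h + 2),
        ((-1 : R) ^ k * (h.choose k : R)) * ((-1 : R) ^ j * ((h + 1).choose j : R))
          * ((BB (j + b) (k + a) : ℤ) : R) := by
  rw [Lam_shift]
  apply Finset.sum_congr rfl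
  intro k hk
  apply Finset.sum_congr rfl
  intro j hj
  rw [Finset.mem_range] at hk hj
  rw [if_pos (by omega)]

theorem full_zero (c b h : ℕ) (hc : b + 2 * h + 1 ≤ c) :
    Lam c ((1 - X) ^ h : R[X]) (X ^ b * (1 - X) ^ (h + 1) : R[X]) = 0 := by
  have h0 : ((1 - X) ^ h : R[X]) = X ^ 0 * (1 - X) ^ h := by simp
  rw [h0, Lam_full c 0 b h (by omega)]
  apply Finset.sum_eq_zero
  intro k hk
  rw [Finset.mem_range] at hk
  have hs : ∀ (N : ℕ) (P : R[X]), ∑ j ∈ range (h + 2), ((-1 : R) ^ j * ((h + 1).choose j : R))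
      * (P * (1 + X) ^ j).coeff N = (P * (-X) ^ (h + 1)).coeff N := by
    intro N P
    have e1 : (-X : R[X]) = 1 - (1 + X) := by ring
    rw [e1, binexp, Finset.mul_sum, finsetSum_coeff]
    apply Finset.sum_congr rfl
    intro j _
    have e2 : P * ((-1) ^ j * ((h + 1).choose j : R[X]) * (1 + X) ^ j)
        = C ((-1 : R) ^ j * ((h + 1).choose j : R)) * (P * (1 + X) ^ j) := by
      simp only [map_mul, map_pow, map_neg, map_one, map_natCast]
      ring
    rw [e2, coeff_C_mul]
  have hz : ∀ (N : ℕ) (P : R[X]), N ≤ h → (P * (-X) ^ (h + 1)).coeff N = 0 := by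
    intro N P hN
    rw [neg_pow, ← mul_assoc, coeff_mul_X_pow', if_neg (by omega)]
  rcases Nat.eq_zero_or_pos k with hk0 | hk0
  · subst hk0
    have h1 := hs 0 1
    rw [hz 0 1 (by omega)] at h1
    have h2 : ∀ j ∈ range (h + 2), ((-1 : R) ^ 0 * (h.choose 0 : R))
        * ((-1 : R) ^ j * ((h + 1).choose j : R)) * ((BB (j + b) (0 + 0) : ℤ) : R)
        = ((-1 : R) ^ j * ((h + 1).choose j : R)) * ((1 : R[X]) * (1 + X) ^ j).coeff 0 := by
      intro j _
      rw [one_mul, coeff_one_add_X_pow]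
      simp [BB]
    rw [Finset.sum_congr rfl h2, h1]
  · have h1 := hs k ((1 - X) * (1 + X) ^ (b + 2 * k - 1))
    rw [hz k _ (by omega)] at h1
    have h2 : ∀ j ∈ range (h + 2), ((-1 : R) ^ k * (h.choose k : R))
        * ((-1 : R) ^ j * ((h + 1).choose j : R)) * ((BB (j + b) (k + 0) : ℤ) : R)
        = ((-1 : R) ^ k * (h.choose k : R)) * (((-1 : R) ^ j * ((h + 1).choose j : R))
          * ((1 - X) * (1 + X) ^ (b + 2 * k - 1) * (1 + X) ^ j : R[X]).coeff k) := by
      intro j _
      rw [BB_coeff, add_zero]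
      have e : j + b + 2 * k - 1 = (b + 2 * k - 1) + j := by omega
      rw [e, pow_add]
      ring_nf
    rw [Finset.sum_congr rfl h2, ← Finset.mul_sum, h1, mul_zero]

theorem full_pos (c a b h : ℕ) (ha : 1 ≤ a) (hc : a + b + 2 * h + 1 ≤ c) :
    Lam c (X ^ a * (1 - X) ^ h : R[X]) (X ^ b * (1 - X) ^ (h + 1) : R[X])
      = -((1 - X) * (1 + X) ^ (2 * a + b - 1) * (1 + X + X ^ 2) ^ h : R[X]).coeff (a - 1) := by
  rw [Lam_full c a b h hc]
  set P : R[X] := (1 - X) * (1 + X) ^ (2 * a + b - 1) with hP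
  have h1 : ∀ k ∈ range (h + 1), ∀ j ∈ range (h + 2),
      ((-1 : R) ^ k * (h.choose k : R)) * ((-1 : R) ^ j * ((h + 1).choose j : R))
          * ((BB (j + b) (k + a) : ℤ) : R)
      = (P * ((-1) ^ k * (h.choose k : R[X]) * (X ^ (h - k) * ((1 + X) ^ 2) ^ k))
          * ((-1) ^ j * ((h + 1).choose j : R[X]) * (1 + X) ^ j)).coeff (h + a) := by
    intro k hk j _
    have hk' : k ≤ h := Nat.lt_succ_iff.mp (Finset.mem_range.mp hk)
    rw [BB_coeff]
    have e1 : j + b + 2 * (k + a) - 1 = (2 * a + b - 1) + 2 * k + j := by omega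
    have e2 : P * ((-1) ^ k * (h.choose k : R[X]) * (X ^ (h - k) * ((1 + X) ^ 2) ^ k))
          * ((-1) ^ j * ((h + 1).choose j : R[X]) * (1 + X) ^ j)
        = C (((-1 : R) ^ k * (h.choose k : R)) * ((-1 : R) ^ j * ((h + 1).choose j : R)))
          * (X ^ (h - k) * ((1 - X) * (1 + X) ^ (j + b + 2 * (k + a) - 1))) := by
      rw [e1, hP]
      simp only [map_mul, map_pow, map_neg, map_one, map_natCast]
      rw [← pow_mul, pow_add, pow_add]
      ring
    rw [e2, coeff_C_mul]
    have e3 : h + a = (k + a) + (h - k) := by omega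
    rw [e3, coeff_X_pow_mul]
  have h2 : ∑ k ∈ range (h + 1), ∑ j ∈ range (h + 2),
      ((-1 : R) ^ k * (h.choose k : R)) * ((-1 : R) ^ j * ((h + 1).choose j : R))
          * ((BB (j + b) (k + a) : ℤ) : R)
      = (∑ k ∈ range (h + 1), ∑ j ∈ range (h + 2),
        (P * ((-1) ^ k * (h.choose k : R[X]) * (X ^ (h - k) * ((1 + X) ^ 2) ^ k))
          * ((-1) ^ j * ((h + 1).choose j : R[X]) * (1 + X) ^ j))).coeff (h + a) := by
    rw [finsetSum_coeff]
    apply Finset.sum_congr rfl
    intro k hk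
    rw [finsetSum_coeff]
    apply Finset.sum_congr rfl
    intro j hj
    exact h1 k hk j hj
  rw [h2]
  have h3 : (∑ k ∈ range (h + 1), ∑ j ∈ range (h + 2),
        (P * ((-1) ^ k * (h.choose k : R[X]) * (X ^ (h - k) * ((1 + X) ^ 2) ^ k))
          * ((-1) ^ j * ((h + 1).choose j : R[X]) * (1 + X) ^ j)))
      = P * (∑ k ∈ range (h + 1), (-1) ^ k * (h.choose k : R[X]) * (X ^ (h - k) * ((1 + X) ^ 2) ^ k))
        * (∑ j ∈ range (h + 2), (-1) ^ j * ((h + 1).choose j : R[X]) * (1 + X) ^ j) := by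
    rw [mul_assoc, Finset.sum_mul_sum, Finset.mul_sum]
    apply Finset.sum_congr rfl
    intro k _
    rw [Finset.mul_sum]
    apply Finset.sum_congr rfl
    intro j _
    rw [mul_assoc]
  have h4 : (∑ k ∈ range (h + 1), (-1) ^ k * (h.choose k : R[X]) * (X ^ (h - k) * ((1 + X) ^ 2) ^ k))
      = (X - (1 + X) ^ 2) ^ h := by
    have hY : ∀ Y : R[X], (∑ k ∈ range (h + 1), (-1) ^ k * (h.choose k : R[X]) * (X ^ (h - k) * Y ^ k))
        = (X - Y) ^ h := by
      intro Y
      have : (X - Y : R[X]) = -Y + X := by ring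
      rw [this, add_pow]
      apply Finset.sum_congr rfl
      intro k _
      rw [neg_pow Y]
      ring
    exact hY _
  have h5 : (∑ j ∈ range (h + 2), (-1) ^ j * ((h + 1).choose j : R[X]) * (1 + X) ^ j)
      = (-X) ^ (h + 1) := by
    have e1 : (-X : R[X]) = 1 - (1 + X) := by ring
    rw [e1, binexp]
  rw [h3, h4, h5]
  have h6 : P * (X - (1 + X) ^ 2) ^ h * (-X) ^ (h + 1)
      = -((P * (1 + X + X ^ 2) ^ h) * X ^ (h + 1)) := by
    have : (X - (1 + X) ^ 2 : R[X]) = -(1 + X + X ^ 2) := by ring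
    rw [this, neg_pow, neg_pow (X : R[X])]
    have h7 : ((-1 : R[X]) ^ h) * (-1) ^ (h + 1) = -1 := by
      rw [← pow_add, Odd.neg_one_pow ⟨h, by ring⟩]
    linear_combination (P * (1 + X + X ^ 2) ^ h * X ^ (h + 1)) * h7
  rw [h6, coeff_neg]
  have e3 : h + a = (a - 1) + (h + 1) := by omega
  rw [e3, coeff_mul_X_pow]

end Pool.Agent.R440.DC
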