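import Mathlib
import Pool.Agent.R440.DC.F

/-!
Approximation of `(1-y)^(-1/2)` by polynomials modulo prime powers and evaluation of
`sum_{l < q} u_l / 4^l`.
-/

set_option autoImplicit false

namespace Pool.Agent.R440.DC

open Finset Nat Polynomial

variable {R : Type*} [CommRing R]

/-- `C(2k,k) κ^k` -/
def XR (κ : R) (k : ℕ) : R := (Nat.centralBinom k : R) * κ ^ k

/-- coefficients of `(1-y)^(1/2)` -/
def YR (κ : R) (j : ℕ) : R := if j = 0 then 1 else XR κ j - XR κ (j - 1)

theorem conv_nat (M : ℕ) : ∑ i ∈ range (M + 1), Nat.centralBinom i * Nat.centralBinom (M - i) = 4 ^ M := by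
  have h := conv_zero M
  have h1 : ((∑ i ∈ range (M + 1), Nat.centralBinom i * Nat.centralBinom (M - i) : ℕ) : ℚ)
      = ((4 ^ M : ℕ) : ℚ) := by
    have h2 : ∀ i ∈ range (M + 1), ((Nat.centralBinom i * Nat.centralBinom (M - i) : ℕ) : ℚ)
        = 4 ^ M * (Xq i * Xq (M - i)) := by
      intro i hi
      obtain ⟨e, he⟩ := Nat.exists_eq_add_of_le (Nat.lt_succ_iff.mp (Finset.mem_range.mp hi))
      have e1 : M - i = e := by omega
      rw [e1, he, pow_add]
      unfold Xq
      have h3 : (4 : ℚ) ^ i ≠ 0 := by positivity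
      have h4 : (4 : ℚ) ^ e ≠ 0 := by positivity
      push_cast
      field_simp
    rw [Nat.cast_sum, Finset.sum_congr rfl h2, ← Finset.mul_sum, h]
    push_cast; ring
  exact_mod_cast h1

theorem XS_sq (κ : R) (hκ : 4 * κ = 1) :
    (PowerSeries.mk (XR κ)) ^ 2 * (1 - PowerSeries.X) = 1 := by
  have h1 : (PowerSeries.mk (XR κ)) ^ 2 = PowerSeries.mk 1 := by
    ext M
    rw [sq, PowerSeries.coeff_mul, PowerSeries.coeff_mk,
      Finset.Nat.sum_antidiagonal_eq_sum_range_succ_mk]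
    simp only [PowerSeries.coeff_mk, Pi.one_apply]
    have h2 : ∀ i ∈ range (M + 1), XR κ i * XR κ (M - i)
        = ((Nat.centralBinom i * Nat.centralBinom (M - i) : ℕ) : R) * κ ^ M := by
      intro i hi
      obtain ⟨e, he⟩ := Nat.exists_eq_add_of_le (Nat.lt_succ_iff.mp (Finset.mem_range.mp hi))
      have e1 : M - i = e := by omega
      rw [e1, he, pow_add]
      unfold XR
      push_cast; ring
    rw [Finset.sum_congr rfl h2, ← Finset.sum_mul, ← Nat.cast_sum, conv_nat]
    push_cast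
    rw [← mul_pow, hκ, one_pow]
  rw [h1]
  exact PowerSeries.mk_one_mul_one_sub_eq_one R

theorem approx (κ : R) (hκ : 4 * κ = 1) (h2 : IsUnit (2 : R)) (h N : ℕ) (E K : R[X])
    (hE : E.coeff 0 = 1) (hK : (1 - X) ^ (2 * h + 1) * E ^ 2 = 1 + X ^ N * K) :
    ∀ k < N, XR κ k = ((1 - X) ^ h * E).coeff k := by
  set P : R[X] := (1 - X) ^ h * E with hP
  have h3 : P ^ 2 * (1 - X) = 1 + X ^ N * K := by
    rw [← hK, hP]; ring
  have h4 := congrArg (fun p : R[X] => (p : PowerSeries R)) h3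
  simp only [Polynomial.coe_mul, Polynomial.coe_pow, Polynomial.coe_sub, Polynomial.coe_one,
    Polynomial.coe_X, Polynomial.coe_add] at h4
  have h5 := XS_sq κ hκ
  set Xs := PowerSeries.mk (XR κ) with hXs
  set U : PowerSeries R := (Xs + (P : PowerSeries R)) * (1 - PowerSeries.X) with hU
  have h6 : (Xs - (P : PowerSeries R)) * U = PowerSeries.X ^ N * (-(K : PowerSeries R)) := by
    rw [hU]
    linear_combination h5 - h4
  have h7 : IsUnit U := by
    rw [PowerSeries.isUnit_iff_constantCoeff, hU]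
    have c1 : PowerSeries.constantCoeff Xs = 1 := by
      rw [hXs, ← PowerSeries.coeff_zero_eq_constantCoeff_apply, PowerSeries.coeff_mk]
      simp [XR]
    have c2 : PowerSeries.constantCoeff (P : PowerSeries R) = 1 := by
      rw [← PowerSeries.coeff_zero_eq_constantCoeff_apply, Polynomial.coeff_coe, hP,
        Polynomial.mul_coeff_zero, hE, Polynomial.coeff_zero_eq_eval_zero]
      simp
    rw [map_mul, map_add, c1, c2]
    simp only [map_sub, map_one, PowerSeries.constantCoeff_X, sub_zero, mul_one]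
    norm_num
    exact h2
  have h8 : PowerSeries.X ^ N ∣ (Xs - (P : PowerSeries R)) := by
    rw [← h7.dvd_mul_right (b := Xs - (P : PowerSeries R)), h6]
    exact Dvd.intro _ rfl
  rw [PowerSeries.X_pow_dvd_iff] at h8
  intro k hk
  have h9 := h8 k hk
  rw [map_sub, hXs, PowerSeries.coeff_mk, Polynomial.coeff_coe] at h9
  exact sub_eq_zero.mp h9

theorem YR_coeff (κ : R) (P : R[X]) (N : ℕ) (h : ∀ k < N, XR κ k = P.coeff k) (h0 : P.coeff 0 = 1) :
    ∀ j < N, YR κ j = ((1 - X) * P).coeff j := by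
  intro j hj
  unfold YR
  rcases Nat.eq_zero_or_pos j with hj0 | hj0
  · subst hj0
    simp [sub_mul, h0]
  · obtain ⟨j, rfl⟩ := Nat.exists_eq_add_of_le' hj0
    rw [if_neg (by omega), sub_mul, one_mul, coeff_sub, coeff_X_mul, h _ hj]
    rw [show j + 1 - 1 = j from rfl, h j (by omega)]

theorem BB_zero_pos (k : ℕ) (hk : 1 ≤ k) : BB 0 k = 0 := by
  obtain ⟨k, rfl⟩ := Nat.exists_eq_add_of_le' hk
  unfold BB
  rw [if_neg (by omega)]
  have e1 : 0 + 2 * (k + 1) - 1 = 2 * k + 1 := by omega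
  rw [e1, show k + 1 - 1 = k from rfl, ← Nat.choose_symm_half]
  ring

theorem YR_succ (κ : R) (hκ : 4 * κ = 1) (m : ℕ) : κ ^ m * (catalan m : R) = -2 * YR κ (m + 1) := by
  unfold YR
  rw [if_neg (by omega), show m + 1 - 1 = m from rfl]
  unfold XR
  have h1 : ((m : ℤ) + 1) * (catalan m : ℤ) = (Nat.centralBinom m : ℤ) := by
    exact_mod_cast succ_mul_catalan_eq_centralBinom m
  have h2 : ((m : ℤ) + 1) * (Nat.centralBinom (m + 1) : ℤ)
      = 2 * (2 * (m : ℤ) + 1) * (Nat.centralBinom m : ℤ) := by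
    exact_mod_cast Nat.succ_mul_centralBinom_succ m
  have h3 : 2 * (catalan m : ℤ) = 4 * (Nat.centralBinom m : ℤ) - (Nat.centralBinom (m + 1) : ℤ) := by
    have h4 : ((m : ℤ) + 1) ≠ 0 := by positivity
    apply mul_left_cancel₀ h4
    linear_combination 2 * h1 + h2
  have h5 := congrArg (fun z : ℤ => (z : R)) h3
  push_cast at h5
  rw [pow_succ]
  linear_combination (-κ ^ m * (catalan m : R) + 2 * κ ^ m * (Nat.centralBinom m : R)) * hκ
    + (2 * κ * κ ^ m) * h5

/-- `sum_{k+j ≤ c} x_k y_j B(j,k)` -/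
def TT (κ : R) (c : ℕ) : R := ∑ k ∈ range (c + 1), ∑ j ∈ range (c + 1 - k),
  XR κ k * YR κ j * ((BB j k : ℤ) : R)

theorem WW_eq (κ : R) (hκ : 4 * κ = 1) (c : ℕ) :
    ∑ l ∈ range c, κ ^ l * ((uu l : ℤ) : R) = -2 * (TT κ c - 1) := by
  have h1 : ∀ l ∈ range c, κ ^ l * ((uu l : ℤ) : R)
      = ∑ k ∈ range (l + 1), XR κ k * (-2 * YR κ (l - k + 1)) * ((BB (l - k + 1) k : ℤ) : R) := by
    intro l _
    unfold uu
    push_cast
    rw [Finset.mul_sum]
    apply Finset.sum_congr rfl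
    intro k hk
    obtain ⟨e, he⟩ := Nat.exists_eq_add_of_le (Nat.lt_succ_iff.mp (Finset.mem_range.mp hk))
    have e1 : l - k = e := by omega
    rw [e1, ← YR_succ κ hκ, he, pow_add]
    unfold XR
    ring
  rw [Finset.sum_congr rfl h1]
  have h2 := Finset.sum_range_diag_flip c
    (fun k m => XR κ k * (-2 * YR κ (m + 1)) * ((BB (m + 1) k : ℤ) : R))
  rw [h2]
  have h3 : TT κ c = 1 + ∑ k ∈ range c, ∑ m ∈ range (c - k),
      XR κ k * YR κ (m + 1) * ((BB (m + 1) k : ℤ) : R) := by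
    unfold TT
    have h4 : ∀ k ∈ range (c + 1), ∑ j ∈ range (c + 1 - k), XR κ k * YR κ j * ((BB j k : ℤ) : R)
        = ∑ m ∈ range (c - k), XR κ k * YR κ (m + 1) * ((BB (m + 1) k : ℤ) : R)
          + XR κ k * ((BB 0 k : ℤ) : R) := by
      intro k hk
      have hk' : k ≤ c := Nat.lt_succ_iff.mp (Finset.mem_range.mp hk)
      have e1 : c + 1 - k = (c - k) + 1 := by omega
      rw [e1, Finset.sum_range_succ']
      congr 1
      simp [YR]
    rw [Finset.sum_congr rfl h4, Finset.sum_add_distrib, add_comm]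
    congr 1
    · rw [Finset.sum_eq_single 0]
      · simp [XR, BB]
      · intro k _ hk
        rw [BB_zero_pos k (by omega)]; simp
      · intro h; simp at h
    · rw [Finset.sum_range_succ]
      simp
  rw [h3]
  have h5 : ∀ k ∈ range c, ∑ m ∈ range (c - k), XR κ k * (-2 * YR κ (m + 1)) * ((BB (m + 1) k : ℤ) : R)
      = -2 * ∑ m ∈ range (c - k), XR κ k * YR κ (m + 1) * ((BB (m + 1) k : ℤ) : R) := by
    intro k _
    rw [Finset.mul_sum]
    apply Finset.sum_congr rfl
    intro m _; ring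
  rw [Finset.sum_congr rfl h5, ← Finset.mul_sum]
  ring

theorem TT_eq (κ : R) (c : ℕ) (P : R[X]) (h0 : P.coeff 0 = 1)
    (h : ∀ k < c + 1, XR κ k = P.coeff k) : TT κ c = Lam c P ((1 - X) * P) := by
  rw [Lam_apply]
  unfold TT
  apply Finset.sum_congr rfl
  intro k hk
  apply Finset.sum_congr rfl
  intro j hj
  rw [Finset.mem_range] at hk hj
  rw [h k hk, YR_coeff κ P (c + 1) h h0 j (by omega)]

end Pool.Agent.R440.DC
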