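import Mathlib
import Pool.Agent.R440.DC.G
import Pool.Agent.R440.DC.E3

/-!
Evaluation of `sum_{l < q} u_l / 4^l` modulo `p` for `q = p^a` and modulo `9` for `q = 3^a`.
-/

set_option autoImplicit false

namespace Pool.Agent.R440.DC

open Finset Nat Polynomial

theorem BB_pos_zero (j : ℕ) : BB j 0 = 1 := by simp [BB]

section modp

variable {p : ℕ} [hp : Fact p.Prime]

theorem W_modp (hodd : p ≠ 2) (a : ℕ) (κ : ZMod p) (hκ : 4 * κ = 1) :
    ∑ l ∈ range (p ^ a), κ ^ l * ((uu l : ℤ) : ZMod p) = 1 := by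
  have hpo : Odd p := hp.out.odd_of_ne_two hodd
  have hqo : Odd (p ^ a) := hpo.pow
  obtain ⟨h, hh⟩ := hqo
  have hq1 : 1 ≤ p ^ a := by omega
  set q := p ^ a with hq
  have h2u : IsUnit (2 : ZMod p) := by
    refine IsUnit.of_mul_eq_one (2 * κ) ?_
    rw [← hκ]; ring
  have hchar : ((1 - X) ^ q : (ZMod p)[X]) = 1 - X ^ q := by
    rw [hq, sub_pow_char_pow, one_pow]
  have hκC : (4 : (ZMod p)[X]) * C κ = 1 := by
    have : (4 : (ZMod p)[X]) = C 4 := (map_ofNat C 4).symm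
    rw [this, ← C_mul, hκ, C_1]
  set E : (ZMod p)[X] := 1 + C (2 * κ) * X ^ q with hE
  set K : (ZMod p)[X] := C κ - 1 - C κ * X ^ q with hK
  have hC2 : (C (2 * κ) : (ZMod p)[X]) = 2 * C κ := by
    rw [C_mul, map_ofNat C 2]
  have h1 : ((1 - X) ^ (2 * h + 1) * E ^ 2 : (ZMod p)[X]) = 1 + X ^ (2 * q) * K := by
    rw [← hh, hchar, hE, hK, hC2]
    have e : (X : (ZMod p)[X]) ^ (2 * q) = (X ^ q) ^ 2 := by rw [← pow_mul]; ring_nf
    rw [e]
    linear_combination ((1 - X ^ q) * (X ^ q + C κ * X ^ q * X ^ q)) * hκC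
  have h0 : E.coeff 0 = 1 := by
    rw [hE, coeff_add, coeff_C_mul, coeff_X_pow, if_neg (by omega)]; simp
  have h3 := approx κ hκ h2u h (2 * q) E K h0 h1
  set P : (ZMod p)[X] := (1 - X) ^ h * E with hP
  have hP0 : P.coeff 0 = 1 := by
    rw [hP, mul_coeff_zero, h0, coeff_zero_eq_eval_zero]; simp
  have h4 := TT_eq κ q P hP0 (fun k hk => h3 k (by omega))
  have hPf : P = X ^ 0 * (1 - X) ^ h + (2 * κ) • (X ^ q * (1 - X) ^ h) := by
    rw [hP, hE, smul_eq_C_mul]; ring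
  have hQf : (1 - X) * P = X ^ 0 * (1 - X) ^ (h + 1) + (2 * κ) • (X ^ q * (1 - X) ^ (h + 1)) := by
    rw [hP, hE, smul_eq_C_mul]; ring
  have hT : TT κ q = 2 * κ := by
    rw [h4, hQf, hPf]
    simp only [map_add, LinearMap.add_apply, map_smul, LinearMap.smul_apply, smul_eq_mul]
    have e1 : Lam q (X ^ 0 * (1 - X) ^ h : (ZMod p)[X]) (X ^ 0 * (1 - X) ^ (h + 1)) = 0 := by
      have := full_zero (R := ZMod p) q 0 h (by omega)
      rw [pow_zero, one_mul]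
      rw [pow_zero] at this
      exact this
    rw [e1, Lam_edge q q 0 h (h + 1) (by omega), Lam_edge q 0 q h (h + 1) (by omega),
      Lam_out q q q h (h + 1) (by omega), BB_zero_pos q hq1, BB_pos_zero]
    push_cast; ring
  rw [WW_eq κ hκ q, hT]
  linear_combination -hκ

end modp

section mod9

theorem nine0 : (9 : ZMod 9) = 0 := rfl

theorem nine0' : (9 : (ZMod 9)[X]) = 0 := by
  have : (9 : (ZMod 9)[X]) = C 9 := (map_ofNat C 9).symm
  rw [this, nine0, C_0]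

theorem cube9 (Y : (ZMod 9)[X]) : (1 - Y) ^ 9 = (1 - Y ^ 3) ^ 3 := by
  linear_combination ((1 - Y ^ 3) ^ 2 * (Y ^ 2 - Y) + 3 * (1 - Y ^ 3) * (Y ^ 2 - Y) ^ 2
    + 3 * (Y ^ 2 - Y) ^ 3) * nine0'

theorem pow9 (b : ℕ) : ((1 - X) ^ (3 * 3 ^ b) : (ZMod 9)[X]) = (1 - X ^ (3 ^ b)) ^ 3 := by
  induction b with
  | zero => simp
  | succ b ih =>
    have e1 : 3 * 3 ^ (b + 1) = (3 * 3 ^ b) * 3 := by rw [pow_succ]; ring
    rw [e1, pow_mul, ih, ← pow_mul]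
    have e2 : (X : (ZMod 9)[X]) ^ 3 ^ (b + 1) = (X ^ 3 ^ b) ^ 3 := by rw [← pow_mul, pow_succ]
    rw [e2, cube9]

theorem pow3 (b : ℕ) : (3 : (ZMod 9)[X]) * (1 - X) ^ (3 ^ b) = 3 * (1 - X ^ (3 ^ b)) := by
  induction b with
  | zero => simp
  | succ b ih =>
    have e1 : 3 ^ (b + 1) = 3 ^ b * 3 := by rw [pow_succ]
    have e2 : (X : (ZMod 9)[X]) ^ 3 ^ (b + 1) = (X ^ 3 ^ b) ^ 3 := by rw [← pow_mul, pow_succ]
    rw [e2, e1, pow_mul]
    set A : (ZMod 9)[X] := (1 - X) ^ 3 ^ b with hA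
    set B : (ZMod 9)[X] := X ^ 3 ^ b with hB
    linear_combination (A ^ 2 + A * (1 - B) + (1 - B) ^ 2) * ih + (B ^ 2 - B) * nine0'

theorem three_pow_eq (A B D : (ZMod 9)[X]) (h : A = B + 3 * D) (n : ℕ) : 3 * A ^ n = 3 * B ^ n := by
  induction n with
  | zero => simp
  | succ n ih =>
    rw [pow_succ, pow_succ]
    have : 3 * (A ^ n * A) = (3 * A ^ n) * A := by ring
    rw [this, ih, h]
    linear_combination (B ^ n * D) * nine0'

theorem three_cast {a b : ℕ} (h : (a : ZMod 3) = (b : ZMod 3)) : (3 : ZMod 9) * (a : ZMod 9) = 3 * (b : ZMod 9) := by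
  have h1 : a ≡ b [MOD 3] := (ZMod.natCast_eq_natCast_iff _ _ 3).mp h
  have h2 : 3 * a ≡ 3 * b [MOD 3 * 3] := Nat.ModEq.mul_left' 3 h1
  have h3 := (ZMod.natCast_eq_natCast_iff (3 * a) (3 * b) 9).mpr h2
  push_cast at h3
  exact h3

theorem luc_pow (b n k : ℕ) :
    (((n * 3 ^ b + (3 ^ b - 1)).choose (k * 3 ^ b + (3 ^ b - 1)) : ℕ) : ZMod 3) = ((n.choose k : ℕ) : ZMod 3) := by
  induction b with
  | zero => simp
  | succ b ih =>
    have hpos : 1 ≤ 3 ^ b := Nat.one_le_pow _ _ (by norm_num)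
    have e : ∀ n : ℕ, n * 3 ^ (b + 1) + (3 ^ (b + 1) - 1) = 3 * (n * 3 ^ b + (3 ^ b - 1)) + 2 := by
      intro n
      rw [pow_succ]
      have : n * (3 ^ b * 3) = 3 * (n * 3 ^ b) := by ring
      rw [this]
      omega
    rw [e, e, luc _ _ 2 2 (by norm_num) (by norm_num), ih]
    simp

theorem luc_pow0 (b n k : ℕ) :
    (((n * 3 ^ b + (3 ^ b - 1)).choose (k * 3 ^ b) : ℕ) : ZMod 3) = ((n.choose k : ℕ) : ZMod 3) := by
  induction b with
  | zero => simp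
  | succ b ih =>
    have hpos : 1 ≤ 3 ^ b := Nat.one_le_pow _ _ (by norm_num)
    have e : ∀ n : ℕ, n * 3 ^ (b + 1) + (3 ^ (b + 1) - 1) = 3 * (n * 3 ^ b + (3 ^ b - 1)) + 2 := by
      intro n
      rw [pow_succ]
      have : n * (3 ^ b * 3) = 3 * (n * 3 ^ b) := by ring
      rw [this]
      omega
    have e' : k * 3 ^ (b + 1) = 3 * (k * 3 ^ b) + 0 := by rw [pow_succ]; ring
    rw [e, e', luc _ _ 2 0 (by norm_num) (by norm_num), ih]
    simp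

/-- `3 coeff_N ((1-X)(1+X)^M (1+X+X^2)^h)` -/
theorem coeff_red (b h M N : ℕ) (hh : 3 ^ b = 2 * h + 1) :
    (3 : ZMod 9) * ((1 - X) * (1 + X) ^ M * (1 + X + X ^ 2) ^ h : (ZMod 9)[X]).coeff N
      = 3 * (((M.choose N : ℕ) : ZMod 9) - if 3 ^ b ≤ N then ((M.choose (N - 3 ^ b) : ℕ) : ZMod 9) else 0) := by
  have h1 : (3 : (ZMod 9)[X]) * ((1 - X) * (1 + X) ^ M * (1 + X + X ^ 2) ^ h)
      = 3 * ((1 + X) ^ M - X ^ (3 ^ b) * (1 + X) ^ M) := by
    have h2 : (3 : (ZMod 9)[X]) * (1 + X + X ^ 2) ^ h = 3 * ((1 - X) ^ 2) ^ h :=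
      three_pow_eq _ _ X (by ring) h
    have h3 := pow3 b
    have h4 : ((1 - X) * ((1 - X) ^ 2) ^ h : (ZMod 9)[X]) = (1 - X) ^ (3 ^ b) := by
      rw [← pow_mul, hh]; ring
    calc (3 : (ZMod 9)[X]) * ((1 - X) * (1 + X) ^ M * (1 + X + X ^ 2) ^ h)
        = (3 * (1 + X + X ^ 2) ^ h) * ((1 - X) * (1 + X) ^ M) := by ring
      _ = 3 * ((1 - X) * ((1 - X) ^ 2) ^ h) * (1 + X) ^ M := by rw [h2]; ring
      _ = (3 * (1 - X) ^ (3 ^ b)) * (1 + X) ^ M := by rw [h4]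
      _ = _ := by rw [h3]; ring
  have h5 := congrArg (fun f : (ZMod 9)[X] => f.coeff N) h1
  have h6 : (3 : (ZMod 9)[X]) = C 3 := (map_ofNat C 3).symm
  simp only [h6, coeff_C_mul, coeff_sub, coeff_X_pow_mul', coeff_one_add_X_pow] at h5
  exact h5

/-- scalar `3` kills the difference between the two forms -/
theorem Lam_red (b c h i i' : ℕ) :
    (3 : ZMod 9) * Lam c (X ^ i * (1 - X) ^ (3 ^ b + h) : (ZMod 9)[X]) (X ^ i' * (1 - X) ^ (3 ^ b + h + 1))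
      = 3 * (Lam c (X ^ i * (1 - X) ^ h : (ZMod 9)[X]) (X ^ i' * (1 - X) ^ (h + 1))
        - Lam c (X ^ (i + 3 ^ b) * (1 - X) ^ h : (ZMod 9)[X]) (X ^ i' * (1 - X) ^ (h + 1))
        - Lam c (X ^ i * (1 - X) ^ h : (ZMod 9)[X]) (X ^ (i' + 3 ^ b) * (1 - X) ^ (h + 1))
        + Lam c (X ^ (i + 3 ^ b) * (1 - X) ^ h : (ZMod 9)[X]) (X ^ (i' + 3 ^ b) * (1 - X) ^ (h + 1))) := by
  have key : ∀ i h : ℕ, (3 : ZMod 9) • (X ^ i * (1 - X) ^ (3 ^ b + h) : (ZMod 9)[X])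
      = (3 : ZMod 9) • (X ^ i * (1 - X) ^ h - X ^ (i + 3 ^ b) * (1 - X) ^ h : (ZMod 9)[X]) := by
    intro i h
    rw [smul_eq_C_mul, smul_eq_C_mul]
    have h6 : (C 3 : (ZMod 9)[X]) = 3 := map_ofNat C 3
    rw [h6, pow_add]
    have h3 := pow3 b
    rw [pow_add X]
    linear_combination (X ^ i * (1 - X) ^ h) * h3
  have s1 : ∀ f g : (ZMod 9)[X], (3 : ZMod 9) * Lam c f g = Lam c ((3 : ZMod 9) • f) g := by
    intro f g; rw [map_smul, LinearMap.smul_apply, smul_eq_mul]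
  have s2 : ∀ f g : (ZMod 9)[X], (3 : ZMod 9) * Lam c f g = Lam c f ((3 : ZMod 9) • g) := by
    intro f g; rw [map_smul, smul_eq_mul]
  rw [s1, key, ← s1, s2, add_assoc (3 ^ b) h 1, key, ← s2]
  simp only [map_sub, LinearMap.sub_apply]
  ring

theorem W_mod9 (b : ℕ) :
    ∑ l ∈ range (3 * 3 ^ b), (7 : ZMod 9) ^ l * ((uu l : ℤ) : ZMod 9) = 4 := by
  have hro : Odd (3 ^ b) := (by decide : Odd 3).pow
  obtain ⟨h, hh⟩ := hro
  set r := 3 ^ b with hr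
  have hr1 : 1 ≤ r := by omega
  have hκ : (4 : ZMod 9) * 7 = 1 := rfl
  have h2u : IsUnit (2 : ZMod 9) := IsUnit.of_mul_eq_one 5 rfl
  have hpow : ((1 - X) ^ (3 * r) : (ZMod 9)[X]) = (1 - X ^ r) ^ 3 := pow9 b
  set E : (ZMod 9)[X] := 1 + 6 * X ^ r + 3 * (X ^ r) ^ 2 + 5 * (X ^ r) ^ 3 with hE
  set K : (ZMod 9)[X] := 45 - 81 * X ^ r + 96 * (X ^ r) ^ 2 - 54 * (X ^ r) ^ 3 + 45 * (X ^ r) ^ 4
    - 25 * (X ^ r) ^ 5 with hK
  have h1 : ((1 - X) ^ (2 * (r + h) + 1) * E ^ 2 : (ZMod 9)[X]) = 1 + X ^ (4 * r) * K := by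
    have e0 : 2 * (r + h) + 1 = 3 * r := by omega
    have e : (X : (ZMod 9)[X]) ^ (4 * r) = (X ^ r) ^ 4 := by rw [← pow_mul]; ring_nf
    rw [e0, hpow, hE, hK, e]
    linear_combination (X ^ r + (X ^ r) ^ 2 - 5 * (X ^ r) ^ 3) * nine0'
  have h0 : E.coeff 0 = 1 := by
    rw [hE, coeff_zero_eq_eval_zero]
    simp [show r ≠ 0 by omega]
  have h3 := approx (7 : ZMod 9) hκ h2u (r + h) (4 * r) E K h0 h1
  set P : (ZMod 9)[X] := (1 - X) ^ (r + h) * E with hP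
  have hP0 : P.coeff 0 = 1 := by
    rw [hP, mul_coeff_zero, h0, coeff_zero_eq_eval_zero]; simp
  have h4 := TT_eq (7 : ZMod 9) (3 * r) P hP0 (fun k hk => h3 k (by omega))
  have hfac : ∀ m : ℕ, ((1 - X) ^ m * E : (ZMod 9)[X]) = X ^ 0 * (1 - X) ^ m
      + (6 : ZMod 9) • (X ^ r * (1 - X) ^ m) + (3 : ZMod 9) • (X ^ (2 * r) * (1 - X) ^ m)
      + (5 : ZMod 9) • (X ^ (3 * r) * (1 - X) ^ m) := by
    intro m
    rw [hE, smul_eq_C_mul, smul_eq_C_mul, smul_eq_C_mul]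
    have e2 : (X : (ZMod 9)[X]) ^ (2 * r) = (X ^ r) ^ 2 := by rw [← pow_mul]; ring_nf
    have e3 : (X : (ZMod 9)[X]) ^ (3 * r) = (X ^ r) ^ 3 := by rw [← pow_mul]; ring_nf
    have c6 : (C (6 : ZMod 9) : (ZMod 9)[X]) = 6 := map_ofNat C 6
    have c3 : (C (3 : ZMod 9) : (ZMod 9)[X]) = 3 := map_ofNat C 3
    have c5 : (C (5 : ZMod 9) : (ZMod 9)[X]) = 5 := map_ofNat C 5
    rw [e2, e3, c6, c3, c5]
    ring
  have hPf : P = _ := hfac (r + h)
  have hQ : (1 - X) * P = (1 - X) ^ (r + h + 1) * E := by rw [hP, pow_succ]; ring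
  have hQf := hfac (r + h + 1)
  -- the values
  have z00 : Lam (3 * r) (X ^ 0 * (1 - X) ^ (r + h) : (ZMod 9)[X]) (X ^ 0 * (1 - X) ^ (r + h + 1)) = 0 := by
    have := full_zero (R := ZMod 9) (3 * r) 0 (r + h) (by omega)
    rw [pow_zero, one_mul]
    rw [pow_zero] at this
    exact this
  have z01 : Lam (3 * r) (X ^ 0 * (1 - X) ^ h : (ZMod 9)[X]) (X ^ r * (1 - X) ^ (h + 1)) = 0 := by
    have := full_zero (R := ZMod 9) (3 * r) r h (by omega)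
    rw [pow_zero, one_mul]
    exact this
  have z02 : Lam (3 * r) (X ^ 0 * (1 - X) ^ h : (ZMod 9)[X]) (X ^ (2 * r) * (1 - X) ^ (h + 1)) = 0 := by
    have := full_zero (R := ZMod 9) (3 * r) (2 * r) h (by omega)
    rw [pow_zero, one_mul]
    exact this
  have v10 : (3 : ZMod 9) * Lam (3 * r) (X ^ r * (1 - X) ^ h : (ZMod 9)[X]) (X ^ 0 * (1 - X) ^ (h + 1)) = -3 := by
    rw [full_pos (3 * r) r 0 h hr1 (by omega), mul_neg, coeff_red b h _ _ hh, if_neg (by omega)]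
    have l := three_cast (luc_pow b 1 0)
    have e1 : 1 * 3 ^ b + (3 ^ b - 1) = 2 * r + 0 - 1 := by omega
    have e2 : 0 * 3 ^ b + (3 ^ b - 1) = r - 1 := by omega
    rw [e1, e2] at l
    rw [sub_zero, l]; rfl
  have v11 : (3 : ZMod 9) * Lam (3 * r) (X ^ r * (1 - X) ^ h : (ZMod 9)[X]) (X ^ r * (1 - X) ^ (h + 1)) = -3 := by
    rw [full_pos (3 * r) r r h hr1 (by omega), mul_neg, coeff_red b h _ _ hh, if_neg (by omega)]
    have l := three_cast (luc_pow b 2 0)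
    have e1 : 2 * 3 ^ b + (3 ^ b - 1) = 2 * r + r - 1 := by omega
    have e2 : 0 * 3 ^ b + (3 ^ b - 1) = r - 1 := by omega
    rw [e1, e2] at l
    rw [sub_zero, l]; rfl
  have v20 : (3 : ZMod 9) * Lam (3 * r) (X ^ (2 * r) * (1 - X) ^ h : (ZMod 9)[X]) (X ^ 0 * (1 - X) ^ (h + 1)) = 3 := by
    rw [full_pos (3 * r) (2 * r) 0 h (by omega) (by omega), mul_neg, coeff_red b h _ _ hh,
      if_pos (by omega)]
    have l := three_cast (luc_pow b 3 1)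
    have l' := three_cast (luc_pow b 3 0)
    have e1 : 3 * 3 ^ b + (3 ^ b - 1) = 2 * (2 * r) + 0 - 1 := by omega
    have e2 : 1 * 3 ^ b + (3 ^ b - 1) = 2 * r - 1 := by omega
    have e3 : 0 * 3 ^ b + (3 ^ b - 1) = 2 * r - 1 - 3 ^ b := by omega
    rw [e1, e2] at l
    rw [e1, e3] at l'
    rw [mul_sub, l, l']; rfl
  have v21 : (3 : ZMod 9) * ((BB r (2 * r) : ℤ) : ZMod 9) = -3 := by
    have l := three_cast (luc_pow0 b 4 2)
    have l' := three_cast (luc_pow b 4 1)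
    have e1 : 4 * 3 ^ b + (3 ^ b - 1) = r + 2 * (2 * r) - 1 := by omega
    have e2 : 2 * 3 ^ b = 2 * r := by omega
    have e3 : 1 * 3 ^ b + (3 ^ b - 1) = 2 * r - 1 := by omega
    rw [e1, e2] at l
    rw [e1, e3] at l'
    unfold BB
    rw [if_neg (by omega)]
    push_cast
    rw [mul_sub, l, l']; rfl
  have v12 : (3 : ZMod 9) * ((BB (2 * r) r : ℤ) : ZMod 9) = -3 := by
    have l := three_cast (luc_pow0 b 3 1)
    have l' := three_cast (luc_pow b 3 0)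
    have e1 : 3 * 3 ^ b + (3 ^ b - 1) = 2 * r + 2 * r - 1 := by omega
    have e2 : 1 * 3 ^ b = r := by omega
    have e3 : 0 * 3 ^ b + (3 ^ b - 1) = r - 1 := by omega
    rw [e1, e2] at l
    rw [e1, e3] at l'
    unfold BB
    rw [if_neg (by omega)]
    push_cast
    rw [mul_sub, l, l']; rfl
  have r10 := Lam_red b (3 * r) h r 0
  have r01 := Lam_red b (3 * r) h 0 r
  have r20 := Lam_red b (3 * r) h (2 * r) 0
  have r02 := Lam_red b (3 * r) h 0 (2 * r)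
  have s0 : 0 + 3 ^ b = r := by omega
  have s1 : r + 3 ^ b = 2 * r := by omega
  have s2 : 2 * r + 3 ^ b = 3 * r := by omega
  rw [s0, s1, ← hr, Lam_edge (3 * r) (2 * r) r h (h + 1) (by omega)] at r10
  rw [s0, s1, ← hr, Lam_edge (3 * r) r (2 * r) h (h + 1) (by omega), z01, z02] at r01
  rw [s0, s2, ← hr, Lam_edge (3 * r) (3 * r) 0 h (h + 1) (by omega),
    Lam_edge (3 * r) (2 * r) r h (h + 1) (by omega), Lam_out (3 * r) (3 * r) r h (h + 1) (by omega),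
    BB_zero_pos (3 * r) (by omega)] at r20
  rw [s0, s2, ← hr, Lam_edge (3 * r) r (2 * r) h (h + 1) (by omega),
    Lam_edge (3 * r) 0 (3 * r) h (h + 1) (by omega), Lam_out (3 * r) r (3 * r) h (h + 1) (by omega),
    BB_pos_zero, z02] at r02
  push_cast at r10 r01 r20 r02
  have hT : TT (7 : ZMod 9) (3 * r) = 8 := by
    rw [h4, hQ, hQf, hPf]
    simp only [map_add, LinearMap.add_apply, map_smul, LinearMap.smul_apply, smul_eq_mul]
    rw [z00, Lam_edge (3 * r) (3 * r) 0 (r + h) (r + h + 1) (by omega),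
      Lam_edge (3 * r) 0 (3 * r) (r + h) (r + h + 1) (by omega),
      Lam_out (3 * r) (3 * r) r (r + h) (r + h + 1) (by omega),
      Lam_out (3 * r) r (3 * r) (r + h) (r + h + 1) (by omega),
      Lam_out (3 * r) (3 * r) (2 * r) (r + h) (r + h + 1) (by omega),
      Lam_out (3 * r) (2 * r) (3 * r) (r + h) (r + h + 1) (by omega),
      Lam_out (3 * r) (3 * r) (3 * r) (r + h) (r + h + 1) (by omega),
      Lam_out (3 * r) (2 * r) (2 * r) (r + h) (r + h + 1) (by omega),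
      BB_zero_pos (3 * r) (by omega), BB_pos_zero]
    push_cast
    linear_combination 2 * r10 + 2 * r01 + r20 + r02 + 2 * v10 - v20 - 4 * v11 + v21 + v12
      + (4 * Lam (3 * r) (X ^ r * (1 - X) ^ (r + h) : (ZMod 9)[X]) (X ^ r * (1 - X) ^ (r + h + 1))
        + 2 * Lam (3 * r) (X ^ (2 * r) * (1 - X) ^ (r + h) : (ZMod 9)[X]) (X ^ r * (1 - X) ^ (r + h + 1))
        + 2 * Lam (3 * r) (X ^ r * (1 - X) ^ (r + h) : (ZMod 9)[X]) (X ^ (2 * r) * (1 - X) ^ (r + h + 1))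
        - 1) * nine0
  rw [WW_eq (7 : ZMod 9) hκ (3 * r), hT]
  rfl

end mod9

end Pool.Agent.R440.DC
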