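import Mathlib
import Pool.Agent.R440.DC.D
import Pool.Agent.R440.DC.H

/-!
Residues of the integer form `SS` modulo odd primes and modulo `9`.
-/

set_option autoImplicit false

namespace Pool.Agent.R440.DC

open Finset Nat

section modp

variable {p : ℕ} [hp : Fact p.Prime]

theorem choose_pred (a m l : ℕ) (hm : m + 1 = p ^ a) (hl : l ≤ m) :
    ((m.choose l : ℕ) : ZMod p) = (-1) ^ l := by
  induction l with
  | zero => simp
  | succ l ih =>
    have h1 := ih (by omega)
    have h2 : p ∣ (p ^ a).choose (l + 1) :=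
      hp.out.dvd_choose_pow (by omega) (by omega)
    have h3 : (((p ^ a).choose (l + 1) : ℕ) : ZMod p) = 0 := (ZMod.natCast_eq_zero_iff _ _).mpr h2
    rw [← hm, Nat.choose_succ_succ] at h3
    push_cast at h3
    rw [h1] at h3
    rw [pow_succ]
    linear_combination h3

theorem choose_add_self (a l : ℕ) (hl : l < p ^ a) :
    (((p ^ a + l).choose l : ℕ) : ZMod p) = 1 := by
  rw [Nat.add_choose_eq, Nat.cast_sum, Finset.sum_eq_single (0, l)]
  · simp
  · rintro ⟨i, j⟩ hij hne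
    rw [Finset.HasAntidiagonal.mem_antidiagonal] at hij
    simp only at hij
    have hi : i ≠ 0 := by
      intro h
      apply hne
      rw [h] at hij ⊢
      have : j = l := by omega
      rw [this]
    have h2 : p ∣ (p ^ a).choose i := hp.out.dvd_choose_pow hi (by omega)
    have h3 : (((p ^ a).choose i : ℕ) : ZMod p) = 0 := (ZMod.natCast_eq_zero_iff _ _).mpr h2
    push_cast
    rw [h3]; simp
  · intro h
    exfalso; apply h
    rw [Finset.HasAntidiagonal.mem_antidiagonal]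
    simp

theorem bb_modp (a m l : ℕ) (hm : m + 1 = p ^ a) (hl : l ≤ m) :
    (-1 : ZMod p) ^ l * ((bb m l : ℤ) : ZMod p) = 1 := by
  unfold bb
  push_cast
  rw [choose_pred a m l hm hl]
  have e : (((m + 1 + l).choose l : ℕ) : ZMod p) = 1 := by
    rw [hm]; exact choose_add_self a l (by omega)
  rw [e, mul_one, ← mul_pow]; simp

theorem SS_modp (hodd : p ≠ 2) (a m : ℕ) (hm : m + 1 = p ^ a) :
    ((SS m : ℤ) : ZMod p) = 4 ^ m := by
  have h4 : (4 : ZMod p) ≠ 0 := by
    intro h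
    have h1 : ((4 : ℕ) : ZMod p) = 0 := by exact_mod_cast h
    rw [ZMod.natCast_eq_zero_iff] at h1
    have h2 : p ∣ 2 := by
      have : (4 : ℕ) = 2 ^ 2 := by norm_num
      rw [this] at h1
      exact hp.out.dvd_of_dvd_pow h1
    exact hodd ((Nat.prime_dvd_prime_iff_eq hp.out Nat.prime_two).mp h2)
  have hκ : (4 : ZMod p) * 4⁻¹ = 1 := mul_inv_cancel₀ h4
  have hW := W_modp hodd a (4⁻¹ : ZMod p) hκ
  unfold SS
  push_cast
  have h1 : ∀ l ∈ range (m + 1), (-1 : ZMod p) ^ l * ((bb m l : ℤ) : ZMod p) * ((uu l : ℤ) : ZMod p)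
      * 4 ^ (m - l) = 4 ^ m * ((4⁻¹ : ZMod p) ^ l * ((uu l : ℤ) : ZMod p)) := by
    intro l hl
    have hl' : l ≤ m := Nat.lt_succ_iff.mp (Finset.mem_range.mp hl)
    rw [bb_modp a m l hm hl']
    obtain ⟨e, he⟩ := Nat.exists_eq_add_of_le hl'
    have e1 : m - l = e := by omega
    rw [e1, he, pow_add]
    have h5 : (4 : ZMod p) ^ l * 4⁻¹ ^ l = 1 := by rw [← mul_pow, hκ, one_pow]
    linear_combination (-(4 : ZMod p) ^ e * ((uu l : ℤ) : ZMod p)) * h5
  rw [Finset.sum_congr rfl h1, ← Finset.mul_sum, hm, hW, mul_one]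

end modp

theorem uu_zero : uu 0 = 1 := by simp [uu, BB]

theorem bb_zero (m : ℕ) : bb m 0 = 1 := by simp [bb]

theorem SS_mod3 (m : ℕ) : ((SS m : ℤ) : ZMod 3) = 1 := by
  unfold SS
  push_cast
  rw [Finset.sum_eq_single 0]
  · rw [uu_zero, bb_zero]
    have : (4 : ZMod 3) = 1 := rfl
    rw [this]; simp
  · intro l _ hl
    rw [uu_zmod3 l (by omega)]; simp
  · intro h; simp at h

theorem SS_mod9 (b m : ℕ) (hm : m + 1 = 3 * 3 ^ b) : ((SS m : ℤ) : ZMod 9) = 4 ^ m * 4 := by
  have hκ : (4 : ZMod 9) * 7 = 1 := rfl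
  have hW := W_mod9 b
  unfold SS
  push_cast
  have hm' : m + 1 = 3 ^ (b + 1) := by rw [hm, pow_succ]; ring
  have h1 : ∀ l ∈ range (m + 1), (-1 : ZMod 9) ^ l * ((bb m l : ℤ) : ZMod 9) * ((uu l : ℤ) : ZMod 9)
      * 4 ^ (m - l) = 4 ^ m * ((7 : ZMod 9) ^ l * ((uu l : ℤ) : ZMod 9)) := by
    intro l hl
    have hl' : l ≤ m := Nat.lt_succ_iff.mp (Finset.mem_range.mp hl)
    have h2 : (-1 : ZMod 9) ^ l * ((bb m l : ℤ) : ZMod 9) * ((uu l : ℤ) : ZMod 9)
        = ((uu l : ℤ) : ZMod 9) := by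
      rcases Nat.eq_zero_or_pos l with h0 | h0
      · subst h0; rw [bb_zero, uu_zero]; simp
      · have h3 := uu_zmod3 l h0
        have h4 := bb_modp (p := 3) (b + 1) m l hm' hl'
        rw [ZMod.intCast_zmod_eq_zero_iff_dvd] at h3
        obtain ⟨x, hx⟩ := h3
        have h5 : (((-1) ^ l * bb m l - 1 : ℤ) : ZMod 3) = 0 := by
          push_cast
          rw [h4]; ring
        rw [ZMod.intCast_zmod_eq_zero_iff_dvd] at h5
        obtain ⟨y, hy⟩ := h5
        have h6 : (-1) ^ l * bb m l * uu l = uu l + 9 * (x * y) := by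
          push_cast at hx hy
          have : (-1) ^ l * bb m l = 3 * y + 1 := by linarith
          rw [this, hx]; ring
        have h7 := congrArg (fun z : ℤ => (z : ZMod 9)) h6
        push_cast at h7
        rw [h7, nine0]; ring
    rw [h2]
    obtain ⟨e, he⟩ := Nat.exists_eq_add_of_le hl'
    have e1 : m - l = e := by omega
    rw [e1, he, pow_add]
    have h5 : (4 : ZMod 9) ^ l * 7 ^ l = 1 := by rw [← mul_pow, hκ, one_pow]
    linear_combination (-(4 : ZMod 9) ^ e * ((uu l : ℤ) : ZMod 9)) * h5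
  rw [Finset.sum_congr rfl h1, ← Finset.mul_sum, hm, hW]

end Pool.Agent.R440.DC
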