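import Mathlib
import Pool.Agent.R440.DC.I

/-!
The sums `t(n)`: closed form with Legendre polynomials at `1/2` and integer forms.
-/

set_option autoImplicit false

namespace Pool.Agent.R440.DC

open Finset Nat

/-- `D_n(x)` -/
def Dx (x : ℚ) (n : ℕ) : ℚ := ∑ k ∈ range (n + 1), aa n k * x ^ k

theorem Dx_ext (x : ℚ) (n N : ℕ) (h : n ≤ N) : Dx x n = ∑ k ∈ range (N + 1), aa n k * x ^ k := by
  unfold Dx
  apply Finset.sum_subset (Finset.range_mono (by omega))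
  intro k _ hk
  rw [Finset.mem_range, not_lt] at hk
  rw [aa_zero_of_lt (by omega)]; simp

theorem coef_rec (n k : ℕ) :
    ((n : ℚ) + 2) * aa (n + 2) (k + 1) + ((n : ℚ) + 1) * aa n (k + 1)
      = (2 * (n : ℚ) + 3) * (aa (n + 1) (k + 1) + 2 * aa (n + 1) k) := by
  have hK : ((k : ℚ) + 1) ^ 2 ≠ 0 := by positivity
  apply mul_left_cancel₀ hK
  have a1 := aa_succ_k (n + 2) k
  have a2 := aa_succ_n (n + 1) k
  have a3 := aa_succ_k (n + 1) k
  have a4 := aa_succ_k n k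
  have a5 := aa_succ_n n k
  push_cast at a1 a2 a3 a4 a5
  have e1 : n + 1 + 1 = n + 2 := rfl
  rw [e1] at a2
  linear_combination ((n : ℚ) + 2) * a1 + ((n : ℚ) + 2) * ((n : ℚ) + 2 + k + 1) * a2
    + ((n : ℚ) + 1) * a4 - ((n : ℚ) + 1) * ((n : ℚ) - k) * a5 - (2 * (n : ℚ) + 3) * a3

theorem Dx_rec (x : ℚ) (n : ℕ) :
    ((n : ℚ) + 2) * Dx x (n + 2) = (2 * (n : ℚ) + 3) * (1 + 2 * x) * Dx x (n + 1)
      - ((n : ℚ) + 1) * Dx x n := by
  have h2 : Dx x (n + 2) = 1 + ∑ k ∈ range (n + 2), aa (n + 2) (k + 1) * x ^ (k + 1) := by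
    unfold Dx
    rw [Finset.sum_range_succ']
    simp [aa_n_zero]
    ring
  have h1 : Dx x (n + 1) = 1 + ∑ k ∈ range (n + 2), aa (n + 1) (k + 1) * x ^ (k + 1) := by
    rw [Dx_ext x (n + 1) (n + 2) (by omega), Finset.sum_range_succ']
    simp [aa_n_zero]
    ring
  have h0 : Dx x n = 1 + ∑ k ∈ range (n + 2), aa n (k + 1) * x ^ (k + 1) := by
    rw [Dx_ext x n (n + 2) (by omega), Finset.sum_range_succ']
    simp [aa_n_zero]
    ring
  have hx : x * Dx x (n + 1) = ∑ k ∈ range (n + 2), aa (n + 1) k * x ^ (k + 1) := by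
    unfold Dx
    rw [Finset.mul_sum]
    apply Finset.sum_congr rfl
    intro k _; ring
  have hs : ((n : ℚ) + 2) * (∑ k ∈ range (n + 2), aa (n + 2) (k + 1) * x ^ (k + 1))
      + ((n : ℚ) + 1) * (∑ k ∈ range (n + 2), aa n (k + 1) * x ^ (k + 1))
      = (2 * (n : ℚ) + 3) * ((∑ k ∈ range (n + 2), aa (n + 1) (k + 1) * x ^ (k + 1))
        + 2 * ∑ k ∈ range (n + 2), aa (n + 1) k * x ^ (k + 1)) := by
    simp only [Finset.mul_sum, ← Finset.sum_add_distrib]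
    apply Finset.sum_congr rfl
    intro k _
    linear_combination (x ^ (k + 1)) * coef_rec n k
  have e : (2 * (n : ℚ) + 3) * (1 + 2 * x) * Dx x (n + 1)
      = (2 * (n : ℚ) + 3) * (Dx x (n + 1) + 2 * (x * Dx x (n + 1))) := by ring
  rw [e, hx, h2, h1, h0]
  linear_combination hs

/-- the closed form of the cubic sum -/
theorem cubic_sum (n : ℕ) :
    ∑ k ∈ range (n + 1), (2 * (k : ℚ) + 1) * (-1) ^ k * (Dx (-1 / 4) k) ^ 3
      = (-1) ^ (n + 1) * (4 * ((n : ℚ) + 1) ^ 2 * Dx (-1 / 4) (n + 1) * Dx (-1 / 4) n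
        * (Dx (-1 / 4) (n + 1) - Dx (-1 / 4) n)) := by
  induction n with
  | zero =>
    have h0 : Dx (-1 / 4) 0 = 1 := by simp [Dx, aa]
    have h1 : Dx (-1 / 4) 1 = 1 / 2 := by
      simp [Dx, aa, Finset.sum_range_succ]; norm_num
    rw [Finset.sum_range_one, h0, h1]; norm_num
  | succ n ih =>
    rw [Finset.sum_range_succ, ih]
    have h := Dx_rec (-1 / 4) n
    set D0 := Dx (-1 / 4) n
    set D1 := Dx (-1 / 4) (n + 1)
    set D2 := Dx (-1 / 4) (n + 1 + 1) with hD2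
    have h' : ((n : ℚ) + 2) * D2 = ((n : ℚ) + 3 / 2) * D1 - ((n : ℚ) + 1) * D0 := by
      rw [hD2]
      have : (n + 1 + 1 : ℕ) = n + 2 := rfl
      rw [this, h]; ring
    push_cast
    rw [pow_succ (-1 : ℚ) (n + 1)]
    linear_combination ((-1) ^ (n + 1) * 4 * D1 * (-((n : ℚ) + 2) * D2 - ((n : ℚ) + 3 / 2) * D1
      + ((n : ℚ) + 1) * D0 + ((n : ℚ) + 2) * D1)) * (-h')

/-- Legendre-type expansion -/
theorem Dx_sym_form (x : ℚ) (n : ℕ) :
    Dx x n = ∑ m ∈ range (n + 1), (n.choose m : ℚ) ^ 2 * (x ^ m * (1 + x) ^ (n - m)) := by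
  have h1 : ∀ m ∈ range (n + 1), (n.choose m : ℚ) ^ 2 * (x ^ m * (1 + x) ^ (n - m))
      = ∑ i ∈ range (n + 1 - m), (n.choose m : ℚ) ^ 2 * ((n - m).choose i : ℚ) * x ^ (m + i) := by
    intro m hm
    have e : n + 1 - m = n - m + 1 := by
      have := Finset.mem_range.mp hm; omega
    rw [e, add_comm 1 x, add_pow, Finset.mul_sum, Finset.mul_sum]
    apply Finset.sum_congr rfl
    intro i _
    rw [one_pow, pow_add]; ring
  rw [Finset.sum_congr rfl h1]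
  have h2 := Finset.sum_range_diag_flip (n + 1)
    (fun m i => (n.choose m : ℚ) ^ 2 * ((n - m).choose i : ℚ) * x ^ (m + i))
  rw [← h2]
  unfold Dx
  apply Finset.sum_congr rfl
  intro k hk
  have hk' : k ≤ n := Nat.lt_succ_iff.mp (Finset.mem_range.mp hk)
  have h3 : ∀ m ∈ range (k + 1), (n.choose m : ℚ) ^ 2 * ((n - m).choose (k - m) : ℚ) * x ^ (m + (k - m))
      = (n.choose k : ℚ) * x ^ k * ((n.choose m : ℚ) * (k.choose m : ℚ)) := by
    intro m hm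
    have hm' : m ≤ k := Nat.lt_succ_iff.mp (Finset.mem_range.mp hm)
    have e : m + (k - m) = k := by omega
    rw [e]
    have h4 : n.choose k * k.choose m = n.choose m * (n - m).choose (k - m) := Nat.choose_mul hm'
    have h5 : (n.choose k : ℚ) * (k.choose m : ℚ) = (n.choose m : ℚ) * ((n - m).choose (k - m) : ℚ) := by
      exact_mod_cast h4
    linear_combination (-(n.choose m : ℚ) * x ^ k) * h5
  rw [Finset.sum_congr rfl h3, ← Finset.mul_sum]
  have h6 := choose_vand n k hk'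
  have h7 : ∑ j ∈ range (n + 1), (n.choose j : ℚ) * (k.choose j : ℚ)
      = ∑ j ∈ range (k + 1), (n.choose j : ℚ) * (k.choose j : ℚ) := by
    symm
    apply Finset.sum_subset (Finset.range_mono (by omega))
    intro j _ hj
    rw [Finset.mem_range, not_lt] at hj
    rw [Nat.choose_eq_zero_of_lt (show k < j by omega)]; simp
  rw [← h7, ← h6]
  unfold aa
  ring

theorem Dx_neg (x : ℚ) (n : ℕ) : Dx (-1 - x) n = (-1) ^ n * Dx x n := by
  rw [Dx_sym_form, Dx_sym_form, Finset.mul_sum, ← Finset.sum_range_reflect]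
  apply Finset.sum_congr rfl
  intro m hm
  have hm' : m ≤ n := Nat.lt_succ_iff.mp (Finset.mem_range.mp hm)
  have e1 : n + 1 - 1 - m = n - m := by omega
  have e2 : n - (n - m) = m := by omega
  rw [e1, e2, Nat.choose_symm hm']
  have e3 : (-1 - x) = -(1 + x) := by ring
  have e4 : 1 + -(1 + x) = -x := by ring
  rw [e3, e4, neg_pow, neg_pow x]
  have h : (-1 : ℚ) ^ (n - m) * (-1) ^ m = (-1) ^ n := by
    rw [← pow_add]; congr 1; omega
  linear_combination ((n.choose m : ℚ) ^ 2 * (1 + x) ^ (n - m) * x ^ m) * h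

/-- `C(n,k) C(n+k,k)` as an integer -/
def ai (n k : ℕ) : ℤ := (n.choose k : ℤ) * ((n + k).choose k : ℤ)

theorem ai_cast (n k : ℕ) : ((ai n k : ℤ) : ℚ) = aa n k := by unfold ai aa; push_cast; ring

/-- `4^n P_n(1/2)` -/
def dd (n : ℕ) : ℤ := ∑ k ∈ range (n + 1), (-1) ^ k * ai n k * 4 ^ (n - k)

/-- `(-4)^n P_n(1/2)` expanded at the other point -/
def ee (n : ℕ) : ℤ := ∑ k ∈ range (n + 1), (-3) ^ k * ai n k * 4 ^ (n - k)

theorem int_form (c : ℤ) (n : ℕ) :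
    ((∑ k ∈ range (n + 1), c ^ k * ai n k * 4 ^ (n - k) : ℤ) : ℚ) = 4 ^ n * Dx ((c : ℚ) / 4) n := by
  unfold Dx
  push_cast
  rw [Finset.mul_sum]
  apply Finset.sum_congr rfl
  intro k hk
  obtain ⟨e, he⟩ := Nat.exists_eq_add_of_le (Nat.lt_succ_iff.mp (Finset.mem_range.mp hk))
  have e1 : n - k = e := by omega
  have h2 : (4 : ℚ) ^ n = 4 ^ k * 4 ^ e := by rw [he, pow_add]
  rw [e1, ai_cast, h2, div_pow]
  have h3 : (4 : ℚ) ^ k ≠ 0 := by positivity
  field_simp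

theorem dd_eq (n : ℕ) : (dd n : ℚ) = 4 ^ n * Dx (-1 / 4) n := by
  have := int_form (-1) n
  unfold dd
  rw [this]
  push_cast
  rfl

theorem dd_ee (n : ℕ) : dd n = (-1) ^ n * ee n := by
  have h1 := dd_eq n
  have h2 := int_form (-3) n
  have h3 : ((ee n : ℤ) : ℚ) = 4 ^ n * Dx (((-3 : ℤ) : ℚ) / 4) n := h2
  have h4 : (((-3 : ℤ) : ℚ) / 4) = -1 - (-1 / 4) := by push_cast; norm_num
  rw [h4, Dx_neg] at h3
  have h5 : (-1 : ℚ) ^ n * (-1) ^ n = 1 := by rw [← mul_pow]; simp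
  have h6 : (dd n : ℚ) = (((-1) ^ n * ee n : ℤ) : ℚ) := by
    push_cast
    rw [h1, h3]
    linear_combination (-(4 : ℚ) ^ n * Dx (-1 / 4) n) * h5
  exact_mod_cast h6

/-- integer form of `t(n+1) 4^(3n+1)` -/
theorem t_form (n : ℕ) :
    ∑ k ∈ range (n + 1), (2 * (k : ℚ) + 1) * (-1) ^ k * (Dx (-1 / 4) k) ^ 3
      = ((n : ℚ) + 1) ^ 2 * ((((-1) ^ (n + 1) * dd (n + 1) * dd n * (dd (n + 1) - 4 * dd n) : ℤ) : ℚ)
        / 4 ^ (3 * n + 1)) := by
  rw [cubic_sum]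
  push_cast
  rw [dd_eq, dd_eq]
  have e : (4 : ℚ) ^ (3 * n + 1) = (4 ^ n) ^ 3 * 4 := by rw [← pow_mul]; ring
  rw [e, pow_succ (4 : ℚ) n]
  have h : (4 : ℚ) ^ n ≠ 0 := by positivity
  field_simp

end Pool.Agent.R440.DC
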