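import Mathlib
import Pool.Agent.R440.DC.J

/-!
2-adic and p-adic information on `dd n = 4^n P_n(1/2)`.
-/

set_option autoImplicit false

namespace Pool.Agent.R440.DC

open Finset Nat

theorem ai_eq (n k : ℕ) (_hk : k ≤ n) : ai n k = ((n + k).choose (2 * k) : ℤ) * (Nat.centralBinom k : ℤ) := by
  have h : (n + k).choose (2 * k) * (2 * k).choose k = (n + k).choose k * (n + k - k).choose (2 * k - k) :=
    Nat.choose_mul (by omega)
  have e1 : n + k - k = n := by omega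
  have e2 : 2 * k - k = k := by omega
  rw [e1, e2] at h
  unfold ai Nat.centralBinom
  have h' : (((n + k).choose (2 * k) * (2 * k).choose k : ℕ) : ℤ)
      = (((n + k).choose k * n.choose k : ℕ) : ℤ) := by rw [h]
  push_cast at h'
  rw [h']; ring

theorem dd_two (n : ℕ) : ∃ o : ℤ, dd n = 2 ^ (n - w2 n) * o ∧ Odd o := by
  obtain ⟨o, ho, hodd⟩ := exact_two (Nat.centralBinom_ne_zero n) (cb_fact n)
  have hlow : (2 : ℤ) ^ (n - w2 n + 1) ∣ ∑ k ∈ range n, (-1) ^ k * ai n k * 4 ^ (n - k) := by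
    apply Finset.dvd_sum
    intro k hk
    have hk' : k < n := Finset.mem_range.mp hk
    rw [ai_eq n k hk'.le]
    have h1 := two_pow_dvd_cb k
    have h2 : (2 : ℤ) ^ (n - w2 n + 1) ∣ 2 ^ (k - w2 k) * 4 ^ (n - k) := by
      have : (4 : ℤ) ^ (n - k) = 2 ^ (2 * (n - k)) := by rw [pow_mul]; norm_num
      rw [this, ← pow_add]
      apply pow_dvd_pow
      have h3 := w2_mono (show k ≤ n by omega)
      have h4 := w2_le k
      have h5 := w2_le n
      omega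
    have e : (-1 : ℤ) ^ k * (((n + k).choose (2 * k) : ℤ) * (Nat.centralBinom k : ℤ)) * 4 ^ (n - k)
        = ((-1) ^ k * ((n + k).choose (2 * k) : ℤ)) * ((Nat.centralBinom k : ℤ) * 4 ^ (n - k)) := by ring
    rw [e]
    exact Dvd.dvd.mul_left (h2.trans (mul_dvd_mul h1 (dvd_refl _))) _
  obtain ⟨L, hL⟩ := hlow
  refine ⟨(-1) ^ n * o + 2 * L, ?_, ?_⟩
  · unfold dd
    rw [Finset.sum_range_succ, hL]
    have e1 : n - n = 0 := by omega
    have e2 : ai n n = (Nat.centralBinom n : ℤ) := by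
      unfold ai Nat.centralBinom
      rw [Nat.choose_self, two_mul]; push_cast; ring
    have e3 : (Nat.centralBinom n : ℤ) = 2 ^ (n - w2 n) * (o : ℤ) := by exact_mod_cast ho
    rw [e1, e2, e3, pow_succ]; ring
  · have h1 : Odd ((-1 : ℤ) ^ n * (o : ℤ)) := by
      apply Odd.mul
      · exact (by decide : Odd (-1 : ℤ)).pow
      · exact_mod_cast hodd
    exact h1.add_even ⟨L, by ring⟩

theorem num_two (n : ℕ) : ∃ o : ℤ, (-1) ^ (n + 1) * dd (n + 1) * dd n * (dd (n + 1) - 4 * dd n)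
    = 2 ^ (2 * (n + 1 - w2 (n + 1)) + (n - w2 n)) * o ∧ Odd o := by
  obtain ⟨o1, h1, g1⟩ := dd_two (n + 1)
  obtain ⟨o0, h0, g0⟩ := dd_two n
  have hw := w2_mono (show n ≤ n + 1 by omega)
  have hw0 := w2_le n
  have hw1 := w2_le (n + 1)
  obtain ⟨e, he⟩ := Nat.exists_eq_add_of_le (show n + 1 - w2 (n + 1) + 1 ≤ n - w2 n + 2 by omega)
  have h4 : (4 : ℤ) * 2 ^ (n - w2 n) = 2 ^ (n + 1 - w2 (n + 1)) * (2 * 2 ^ e) := by
    have : (4 : ℤ) * 2 ^ (n - w2 n) = 2 ^ (n - w2 n + 2) := by rw [pow_add]; norm_num; ring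
    rw [this, he, pow_add, pow_add]; ring
  refine ⟨(-1) ^ (n + 1) * o1 * o0 * (o1 - 2 * (2 ^ e * o0)), ?_, ?_⟩
  · rw [h1, h0]
    rw [pow_add, two_mul, pow_add]
    linear_combination (-((-1) ^ (n + 1) * (2 ^ (n + 1 - w2 (n + 1)) * o1) * (2 ^ (n - w2 n) * o0) * o0)) * h4
  · apply Odd.mul
    · apply Odd.mul
      · exact ((by decide : Odd (-1 : ℤ)).pow).mul g1
      · exact g0
    · exact g1.sub_even ⟨2 ^ e * o0, by ring⟩

section modp

variable {p : ℕ} [hp : Fact p.Prime]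

theorem four_pow_card (a : ℕ) : (4 : ZMod p) ^ (p ^ a) = 4 := ZMod.pow_card_pow _

theorem choose_two_self (a : ℕ) : (((p ^ a + p ^ a).choose (p ^ a) : ℕ) : ZMod p) = 2 := by
  have hpos : 1 ≤ p ^ a := Nat.one_le_pow _ _ hp.out.pos
  obtain ⟨m, hm⟩ : ∃ m, m + 1 = p ^ a := ⟨p ^ a - 1, by omega⟩
  rw [Nat.add_choose_eq, Nat.cast_sum, Finset.Nat.sum_antidiagonal_eq_sum_range_succ_mk,
    Finset.sum_range_succ]
  have e : ∑ k ∈ range (p ^ a), (((p ^ a).choose k * (p ^ a).choose (p ^ a - k) : ℕ) : ZMod p) = 1 := by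
    rw [Finset.sum_eq_single 0]
    · simp
    · intro k hk hk0
      have hk' := Finset.mem_range.mp hk
      have h2 : p ∣ (p ^ a).choose k := hp.out.dvd_choose_pow hk0 (by omega)
      have h3 : (((p ^ a).choose k : ℕ) : ZMod p) = 0 := (ZMod.natCast_eq_zero_iff _ _).mpr h2
      push_cast
      rw [h3]; simp
    · intro h; exfalso; apply h; rw [Finset.mem_range]; omega
  rw [e]
  simp
  norm_num

theorem dd_q (hodd : p ≠ 2) (a : ℕ) : ((dd (p ^ a) : ℤ) : ZMod p) = 2 := by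
  have hpo : Odd p := hp.out.odd_of_ne_two hodd
  have hqo : Odd (p ^ a) := hpo.pow
  have hpos : 1 ≤ p ^ a := Nat.one_le_pow _ _ hp.out.pos
  unfold dd
  push_cast
  rw [Finset.sum_range_succ]
  have e : ∑ k ∈ range (p ^ a), (-1 : ZMod p) ^ k * ((ai (p ^ a) k : ℤ) : ZMod p) * 4 ^ (p ^ a - k) = 4 := by
    rw [Finset.sum_eq_single 0]
    · simp [ai, four_pow_card]
    · intro k hk hk0
      have hk' := Finset.mem_range.mp hk
      have h2 : p ∣ (p ^ a).choose k := hp.out.dvd_choose_pow hk0 (by omega)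
      have h3 : (((p ^ a).choose k : ℕ) : ZMod p) = 0 := (ZMod.natCast_eq_zero_iff _ _).mpr h2
      unfold ai
      push_cast
      rw [h3]; simp
    · intro h; exfalso; apply h; rw [Finset.mem_range]; omega
  rw [e]
  unfold ai
  push_cast
  rw [choose_two_self, Nat.choose_self, Odd.neg_one_pow hqo]
  have e2 : p ^ a - p ^ a = 0 := by omega
  rw [e2]; push_cast; ring

theorem dd_pred (hodd : p ≠ 2) (a m : ℕ) (hm : m + 1 = p ^ a) : ((dd m : ℤ) : ZMod p) = 4 ^ m := by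
  unfold dd
  push_cast
  rw [Finset.sum_eq_single 0]
  · simp [ai]
  · intro k hk hk0
    have hk' := Finset.mem_range.mp hk
    obtain ⟨j, rfl⟩ := Nat.exists_eq_succ_of_ne_zero hk0
    have e : m + succ j = p ^ a + j := by omega
    have h4 : (((p ^ a + j).choose (succ j) : ℕ) : ZMod p) = 0 := by
      rw [Nat.add_choose_eq, Nat.cast_sum]
      apply Finset.sum_eq_zero
      rintro ⟨i, i'⟩ hij
      rw [Finset.HasAntidiagonal.mem_antidiagonal] at hij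
      simp only at hij
      rcases Nat.eq_zero_or_pos i with hi | hi
      · have : j < i' := by omega
        simp only
        rw [Nat.choose_eq_zero_of_lt this]; simp
      · have h2 : p ∣ (p ^ a).choose i := hp.out.dvd_choose_pow (by omega) (by omega)
        have h3 : (((p ^ a).choose i : ℕ) : ZMod p) = 0 := (ZMod.natCast_eq_zero_iff _ _).mpr h2
        push_cast
        rw [h3]; simp
    unfold ai
    rw [e]
    push_cast
    rw [h4]; simp
  · intro h; exfalso; apply h; rw [Finset.mem_range]; omega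

theorem num_modp (hodd : p ≠ 2) (a n : ℕ) (hn : n + 1 = p ^ a) :
    (((-1) ^ (n + 1) * dd (n + 1) * dd n * (dd (n + 1) - 4 * dd n) : ℤ) : ZMod p) = 4 ^ (3 * n + 1) := by
  have hpo : Odd p := hp.out.odd_of_ne_two hodd
  have hqo : Odd (n + 1) := by rw [hn]; exact hpo.pow
  have h1 := dd_q hodd a
  have h2 := dd_pred hodd a n hn
  rw [← hn] at h1
  have h3 := four_pow_card (p := p) a
  rw [← hn, pow_succ] at h3
  have h4 : (4 : ZMod p) ≠ 0 := by
    intro h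
    have h1 : ((4 : ℕ) : ZMod p) = 0 := by exact_mod_cast h
    rw [ZMod.natCast_eq_zero_iff] at h1
    have h2 : p ∣ 2 := by
      have : (4 : ℕ) = 2 ^ 2 := by norm_num
      rw [this] at h1
      exact hp.out.dvd_of_dvd_pow h1
    exact hodd ((Nat.prime_dvd_prime_iff_eq hp.out Nat.prime_two).mp h2)
  have h5 : (4 : ZMod p) ^ n = 1 := by
    apply mul_right_cancel₀ h4
    rw [h3, one_mul]
  push_cast
  rw [h1, h2, Odd.neg_one_pow hqo]
  have h6 : (4 : ZMod p) ^ (3 * n + 1) = (4 ^ n) ^ 3 * 4 := by rw [← pow_mul]; ring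
  rw [h6, h5]
  ring

end modp

theorem add_two_le_pow (s : ℕ) (hs : 1 ≤ s) : s + 2 ≤ 3 ^ s := by
  induction s with
  | zero => omega
  | succ s ih =>
    rcases Nat.eq_zero_or_pos s with h | h
    · subst h; norm_num
    · have := ih h
      rw [pow_succ]; omega

theorem term_dvd (a k : ℕ) (hk : 2 ≤ k) (y : ℤ) (h : (3 : ℤ) ^ a ∣ (k : ℤ) * y) :
    (3 : ℤ) ^ (a + 2) ∣ (3 : ℤ) ^ k * y := by
  obtain ⟨s, k', hk', hks⟩ := Nat.exists_eq_pow_mul_and_not_dvd (n := k) (by omega) 3 (by norm_num)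
  have hpos : 1 ≤ k' := by
    rcases Nat.eq_zero_or_pos k' with h0 | h0
    · rw [h0] at hks; simp at hks; omega
    · exact h0
  have h3s : 3 ^ s ≤ k := by
    calc 3 ^ s = 3 ^ s * 1 := by ring
      _ ≤ 3 ^ s * k' := Nat.mul_le_mul_left _ hpos
      _ = k := hks.symm
  have hs : s + 2 ≤ k := by
    rcases Nat.eq_zero_or_pos s with h0 | h0
    · omega
    · exact (add_two_le_pow s h0).trans h3s
  obtain ⟨e, he⟩ := Nat.exists_eq_add_of_le hs
  obtain ⟨z, hz⟩ := h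
  have h1 : (3 : ℤ) ^ s * ((k' : ℤ) * (3 ^ k * y)) = 3 ^ s * (3 ^ (a + 2) * (3 ^ e * z)) := by
    have hkc : (k : ℤ) = 3 ^ s * (k' : ℤ) := by exact_mod_cast hks
    have h2 : (3 : ℤ) ^ s * ((k' : ℤ) * (3 ^ k * y)) = 3 ^ k * ((k : ℤ) * y) := by rw [hkc]; ring
    rw [h2, hz]
    have h3 : (3 : ℤ) ^ k = 3 ^ s * 3 ^ 2 * 3 ^ e := by rw [← pow_add, ← pow_add, ← he]
    rw [h3, pow_add 3 a 2]; ring
  have h2 := mul_left_cancel₀ (pow_ne_zero s (by norm_num : (3 : ℤ) ≠ 0)) h1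
  have h3 : (3 : ℤ) ^ (a + 2) ∣ (k' : ℤ) * (3 ^ k * y) := by rw [h2]; exact Dvd.intro _ rfl
  have hcop : IsCoprime ((3 : ℤ) ^ (a + 2)) (k' : ℤ) := by
    apply IsCoprime.pow_left
    have : Nat.Coprime 3 k' := (Nat.Prime.coprime_iff_not_dvd Nat.prime_three).mpr hk'
    exact_mod_cast Nat.isCoprime_iff_coprime.mpr this
  exact hcop.dvd_of_dvd_mul_left h3

theorem ee_approx (a n : ℕ) (hn : 1 ≤ n) (h : ∀ k, 1 ≤ k → k ≤ n → (3 : ℤ) ^ a ∣ (k : ℤ) * ai n k) :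
    (3 : ℤ) ^ (a + 2) ∣ ee n - (4 ^ n - 3 * (n * (n + 1)) * 4 ^ (n - 1)) := by
  unfold ee
  obtain ⟨m, rfl⟩ := Nat.exists_eq_add_of_le' hn
  rw [Finset.sum_range_succ', Finset.sum_range_succ']
  have e0 : (-3 : ℤ) ^ 0 * ai (m + 1) 0 * 4 ^ (m + 1 - 0) = 4 ^ (m + 1) := by simp [ai]
  have e1 : (-3 : ℤ) ^ (0 + 1) * ai (m + 1) (0 + 1) * 4 ^ (m + 1 - (0 + 1))
      = -(3 * (((m + 1 : ℕ) : ℤ) * (((m + 1 : ℕ) : ℤ) + 1)) * 4 ^ (m + 1 - 1)) := by
    unfold ai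
    simp
  rw [e0, e1]
  have e2 : ∀ S A B : ℤ, S + -A + B - (B - A) = S := by intro S A B; ring
  rw [e2]
  apply Finset.dvd_sum
  intro k hk
  have hk' := Finset.mem_range.mp hk
  have h1 := term_dvd a (k + 1 + 1) (by omega) (ai (m + 1) (k + 1 + 1)) (h _ (by omega) (by omega))
  have e3 : (-3 : ℤ) ^ (k + 1 + 1) * ai (m + 1) (k + 1 + 1) * 4 ^ (m + 1 - (k + 1 + 1))
      = ((-1) ^ (k + 1 + 1) * 4 ^ (m + 1 - (k + 1 + 1))) * (3 ^ (k + 1 + 1) * ai (m + 1) (k + 1 + 1)) := by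
    have : (-3 : ℤ) = -1 * 3 := by norm_num
    rw [this, mul_pow]; ring
  rw [e3]
  exact Dvd.dvd.mul_left h1 _

theorem ai_dvd_q (q k : ℕ) (hk : 1 ≤ k) : (q : ℤ) ∣ (k : ℤ) * ai q k := by
  rcases Nat.eq_zero_or_pos q with h | h
  · subst h
    simp [ai, Nat.choose_eq_zero_of_lt (show 0 < k by omega)]
  obtain ⟨q, rfl⟩ := Nat.exists_eq_add_of_le' h
  obtain ⟨j, rfl⟩ := Nat.exists_eq_add_of_le' hk
  have h1 := Nat.add_one_mul_choose_eq q j
  unfold ai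
  refine ⟨(q.choose j : ℤ) * ((q + 1 + (j + 1)).choose (j + 1) : ℤ), ?_⟩
  have h2 : (((q + 1) * q.choose j : ℕ) : ℤ) = (((q + 1).choose (j + 1) * (j + 1) : ℕ) : ℤ) := by rw [h1]
  push_cast at h2 ⊢
  linear_combination (-((q + 1 + (j + 1)).choose (j + 1) : ℤ)) * h2

theorem ai_dvd_pred (m k : ℕ) (hk : 1 ≤ k) : ((m + 1 : ℕ) : ℤ) ∣ (k : ℤ) * ai m k := by
  obtain ⟨j, rfl⟩ := Nat.exists_eq_add_of_le' hk
  have h1 := Nat.choose_succ_right_eq (m + (j + 1)) j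
  have e : m + (j + 1) - j = m + 1 := by omega
  rw [e] at h1
  unfold ai
  refine ⟨(m.choose (j + 1) : ℤ) * ((m + (j + 1)).choose j : ℤ), ?_⟩
  have h2 : (((m + (j + 1)).choose (j + 1) * (j + 1) : ℕ) : ℤ)
      = (((m + (j + 1)).choose j * (m + 1) : ℕ) : ℤ) := by rw [h1]
  push_cast at h2 ⊢
  linear_combination (m.choose (j + 1) : ℤ) * h2

theorem num_mod243 (b n : ℕ) (hn : n + 1 = 3 ^ (b + 2)) :
    (243 : ℤ) ∣ (-1) ^ (n + 1) * dd (n + 1) * dd n * (dd (n + 1) - 4 * dd n) + 8 * 4 ^ (3 * n + 1) := by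
  have hq : ((n : ℤ) + 1) = 3 ^ (b + 2) := by exact_mod_cast hn
  have hpos : 1 ≤ 3 ^ b := Nat.one_le_pow _ _ (by norm_num)
  have h9 : 3 ^ (b + 2) = 9 * 3 ^ b := by rw [pow_add]; ring
  have hn1 : 1 ≤ n := by omega
  obtain ⟨m, rfl⟩ := Nat.exists_eq_add_of_le' hn1
  have hodd : Odd (m + 1 + 1) := by rw [hn]; exact (by decide : Odd 3).pow
  have heven : Even (m + 1) := by
    rcases Nat.even_or_odd (m + 1) with h | h
    · exact h
    · exfalso
      have := h.add_one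
      exact (Nat.not_even_iff_odd.mpr hodd) this
  obtain ⟨K1, hK1⟩ := ee_approx (b + 2) (m + 1 + 1) (by omega) (by
    intro k hk _
    have := ai_dvd_q (m + 1 + 1) k hk
    rw [hn] at this ⊢
    exact_mod_cast this)
  obtain ⟨K2, hK2⟩ := ee_approx (b + 2) (m + 1) (by omega) (by
    intro k hk _
    have := ai_dvd_pred (m + 1) k hk
    rw [hn] at this
    exact_mod_cast this)
  rw [dd_ee, dd_ee, Odd.neg_one_pow hodd, Even.neg_one_pow heven]
  have e1 : m + 1 + 1 - 1 = m + 1 := by omega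
  have e2 : m + 1 - 1 = m := by omega
  rw [e1] at hK1
  rw [e2] at hK2
  have e3 : (3 : ℤ) ^ (b + 2 + 2) = 81 * 3 ^ b := by rw [pow_add, pow_add]; ring
  rw [e3] at hK1 hK2
  set A : ℤ := 4 ^ m with hA
  have f1 : (4 : ℤ) ^ (m + 1) = 4 * A := by rw [pow_succ, hA]; ring
  have f2 : (4 : ℤ) ^ (m + 1 + 1) = 16 * A := by rw [pow_succ, pow_succ, hA]; ring
  have f3 : (4 : ℤ) ^ (3 * (m + 1) + 1) = 256 * A ^ 3 := by
    rw [hA, ← pow_mul]
    have : 3 * (m + 1) + 1 = m * 3 + 4 := by ring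
    rw [this, pow_add]; norm_num; ring
  rw [f1, f2] at hK1
  rw [f1] at hK2
  rw [f3]
  push_cast at hK1 hK2 hq
  set r : ℤ := 3 ^ b with hr
  have hm : (m : ℤ) = 9 * r - 2 := by
    have : (3 : ℤ) ^ (b + 2) = 9 * r := by rw [pow_add, hr]; ring
    rw [this] at hq
    linarith
  have g1 : ee (m + 1 + 1) = 16 * A - 27 * (4 * r * (9 * r + 1) * A - 3 * r * K1) := by
    have : ee (m + 1 + 1) = 81 * r * K1 + (16 * A - 3 * (((m : ℤ) + 1 + 1) * ((m : ℤ) + 1 + 1 + 1)) * (4 * A)) := by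
      linarith
    rw [this, hm]; ring
  have g2 : ee (m + 1) = 4 * A - 27 * (r * (9 * r - 1) * A - 3 * r * K2) := by
    have : ee (m + 1) = 81 * r * K2 + (4 * A - 3 * (((m : ℤ) + 1) * ((m : ℤ) + 1 + 1)) * A) := by
      linarith
    rw [this, hm]; ring
  set x : ℤ := 4 * r * (9 * r + 1) * A - 3 * r * K1 with hx
  set y : ℤ := r * (9 * r - 1) * A - 3 * r * K2 with hy
  have hz : ∃ z : ℤ, x + 4 * y = 3 * z := ⟨24 * r ^ 2 * A - r * K1 - 4 * r * K2, by rw [hx, hy]; ring⟩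
  obtain ⟨z, hz⟩ := hz
  rw [g1, g2]
  -- with B = 4A : (4B - 27x)(B - 27y)(8B - 81 z)
  have key : -1 * (-1 * (16 * A - 27 * x)) * (1 * (4 * A - 27 * y))
      * (-1 * (16 * A - 27 * x) - 4 * (1 * (4 * A - 27 * y))) + 8 * (256 * A ^ 3)
      = (16 * A - 27 * x) * (4 * A - 27 * y) * (-(32 * A) + 27 * (x + 4 * y)) + 2048 * A ^ 3 := by ring
  rw [key, hz]
  have key2 : (16 * A - 27 * x) * (4 * A - 27 * y) * (-(32 * A) + 27 * (3 * z)) + 2048 * A ^ 3
      = (64 * A ^ 2 - 27 * (4 * A) * (x + 4 * y) + 729 * (x * y)) * (-(32 * A) + 81 * z) + 2048 * A ^ 3 := by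
    ring
  rw [key2, hz]
  exact ⟨(64 * A ^ 2 * z + 32 * 4 * A ^ 2 * z) / 3 * 0 + (64 * A ^ 2 * z * 81 + 27 * 4 * A * 3 * z * 32 * A) / 243
    - 108 * A * z * z + 3 * (x * y) * (-(32 * A) + 81 * z), by
      have : (64 * A ^ 2 * z * 81 + 27 * 4 * A * 3 * z * 32 * A) = 243 * (64 * A ^ 2 * z) := by ring
      rw [this, Int.mul_ediv_cancel_left _ (by norm_num)]
      ring⟩

end Pool.Agent.R440.DC
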